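import Pool.Agent.T6.H48.CZ.LinAlg

/-!
# Closing in symplectic blocks by small translations
-/

set_option autoImplicit false

open Set Filter Topology

namespace Pool.Agent.T6.H48.CZ.Mid

/-- compositions of the maps `f j + s` -/
def itr {V : Type*} [AddCommGroup V] (f : ℕ → V → V) (s : V) : ℕ → V → V
  | 0 => id
  | j + 1 => fun z => f j (itr f s j z) + s

variable {V : Type*} [NormedAddCommGroup V] [NormedSpace ℝ V] [FiniteDimensional ℝ V]
variable {κ : Type*} [Fintype κ] {ω : V →L[ℝ] V →L[ℝ] ℝ} {b : Module.Basis κ ℝ V}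

theorem pow_symp {A : V ≃L[ℝ] V} (hA : ∀ u v, ω (A u) (A v) = ω u v) (N : ℕ) (u v : V) :
    ω ((A ^ N) u) ((A ^ N) v) = ω u v := by
  induction N with
  | zero => rfl
  | succ N ih =>
    rw [pow_succ']
    exact (hA _ _).trans ih

theorem pow_latt {A : V ≃L[ℝ] V} (hA : ∀ i, A (b i) ∈ Submodule.span ℤ (Set.range b)) (N : ℕ) :
    ∀ l ∈ Submodule.span ℤ (Set.range b), (A ^ N) l ∈ Submodule.span ℤ (Set.range b) := by
  induction N with
  | zero => intro l hl; exact hl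
  | succ N ih =>
    intro l hl
    rw [pow_succ']
    exact latt_map (B := (A : V →L[ℝ] V)) b hA _ (ih l hl)

theorem pow_symm_latt {A : V ≃L[ℝ] V} (hA : ∀ i, A.symm (b i) ∈ Submodule.span ℤ (Set.range b))
    (N : ℕ) : ∀ l ∈ Submodule.span ℤ (Set.range b),
      (A ^ N).symm l ∈ Submodule.span ℤ (Set.range b) := by
  induction N with
  | zero => intro l hl; exact hl
  | succ N ih =>
    intro l hl
    rw [pow_succ']
    exact ih _ (latt_map (B := (A.symm : V →L[ℝ] V)) b hA _ hl)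

theorem itr_chain {A : V ≃L[ℝ] V} (hA : ∀ u v, ω (A u) (A v) = ω u v)
    (hAb : ∀ i, A (b i) ∈ Submodule.span ℤ (Set.range b))
    {g : ℕ → V → V} {t : ℕ → V} (hg : ∀ j, IsChain ω b (g j) (t j)) (s' : V) (N : ℕ) :
    ∃ K : V → V, IsChain ω b K (∑ j ∈ Finset.range N, (A ^ j).symm (t j + s')) ∧
      ∀ z, itr (fun j z => A (g j z)) (A s') N z = (A ^ N) (K z) := by
  induction N with
  | zero => exact ⟨id, by simpa using isChain_id, fun z => rfl⟩
  | succ N ih =>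
    obtain ⟨K, hK, hz⟩ := ih
    have h1 := (((hg N).comp (isChain_transl s')).conj (A ^ N) (pow_symp hA N)
      (fun i => pow_latt hAb N _ (Submodule.subset_span ⟨i, rfl⟩)))
    refine ⟨(fun z => (A ^ N).symm (((fun z => z + s') ∘ g N) ((A ^ N) z))) ∘ K, ?_, ?_⟩
    · rw [Finset.sum_range_succ]
      exact hK.comp h1
    · intro z
      change A (g N (itr (fun j z => A (g j z)) (A s') N z)) + A s' = _
      rw [hz, pow_succ']
      change A (g N ((A ^ N) (K z))) + A s' =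
        A ((A ^ N) ((A ^ N).symm (g N ((A ^ N) (K z)) + s')))
      rw [ContinuousLinearEquiv.apply_symm_apply, map_add]

theorem block_point (hω : IsSympForm ω) {A : V ≃L[ℝ] V} (hA : ∀ u v, ω (A u) (A v) = ω u v)
    (hAb : ∀ i, A (b i) ∈ Submodule.span ℤ (Set.range b))
    (hAb' : ∀ i, A.symm (b i) ∈ Submodule.span ℤ (Set.range b))
    {g : ℕ → V → V} {t : ℕ → V} (hg : ∀ j, IsChain ω b (g j) (t j)) {s' : V} {N : ℕ}
    (h1 : ∀ x, (A ^ N) x = -x → x = 0) {p x : V}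
    (hs : ∑ j ∈ Finset.range N, (A ^ j).symm (t j + s') = p + ((A ^ N).symm x - x)) :
    ∃ z, itr (fun j z => A (g j z)) (A s') N z = z + p := by
  obtain ⟨K, hK, hz⟩ := itr_chain hA hAb hg s' N
  have hC : ∀ u v, ω (((A ^ N).symm : V →L[ℝ] V) u) (((A ^ N).symm : V →L[ℝ] V) v) = ω u v := by
    intro u v
    rw [← pow_symp hA N]
    simp
  obtain ⟨z, h2⟩ := hK.point hω hC (by
    intro x hx
    apply h1
    have h3 := congrArg (fun y => (A ^ N) y) hx
    simp only [ContinuousLinearEquiv.coe_coe, ContinuousLinearEquiv.apply_symm_apply, map_neg] at h3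
    rw [h3, neg_neg, ← h3]) (coKer_of_int b (fun i => pow_symm_latt hAb' N _ (Submodule.subset_span ⟨i, rfl⟩))) (x - p)
  refine ⟨z, ?_⟩
  rw [hz, h2, hs]
  have h4 : ((A ^ N).symm : V →L[ℝ] V) (z - (x - p)) + (x - p) + (p + ((A ^ N).symm x - x)) =
      (A ^ N).symm (z + p) := by
    simp only [ContinuousLinearEquiv.coe_coe, map_sub, map_add]
    abel
  rw [h4, ContinuousLinearEquiv.apply_symm_apply]

theorem noRoots_block (hω : IsSympForm ω) {A : V ≃L[ℝ] V} (hA : ∀ u v, ω (A u) (A v) = ω u v)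
    (hAb : ∀ i, A (b i) ∈ Submodule.span ℤ (Set.range b))
    (hAb' : ∀ i, A.symm (b i) ∈ Submodule.span ℤ (Set.range b)) (hR : NoRoots A)
    {g : ℕ → V → V} (hg : ∀ j, ∃ t, IsChain ω b (g j) t) {ε : ℝ} (hε : 0 < ε) {N : ℕ}
    (hN : 1 ≤ N) : ∃ s, ‖s‖ < ε ∧ ∃ M : ℕ, 1 ≤ M ∧ ∃ z, ∃ p ∈ Submodule.span ℤ (Set.range b),
      itr (fun j z => A (g j z)) s (N * M) z = z + p := by
  choose t ht using hg
  obtain ⟨M, hM⟩ := exists_nat_gt (‖(A : V →L[ℝ] V)‖ * (∑ i, ‖b i‖) / ε)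
  have hM0 : (0 : ℝ) < M := by
    refine lt_of_le_of_lt ?_ hM
    have : 0 ≤ ∑ i, ‖b i‖ := Finset.sum_nonneg fun _ _ => norm_nonneg _
    positivity
  have hM1 : 1 ≤ M := by exact_mod_cast hM0
  set L := N * M with hL
  have hL1 : 1 ≤ L := Nat.one_le_iff_ne_zero.2 (by positivity)
  have hL0 : (0 : ℝ) < L := by exact_mod_cast hL1
  have hML : (M : ℝ) ≤ L := by
    rw [hL]
    push_cast
    have : (1 : ℝ) ≤ N := by exact_mod_cast hN
    nlinarith
  -- the translation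
  set τ : V := ∑ j ∈ Finset.range L, t j with hτ
  set p : V := (ZSpan.floor b τ : V) with hp
  set s' : V := (L : ℝ)⁻¹ • (p - τ) with hs'
  have hsum : ∑ j ∈ Finset.range L, (t j + s') = p := by
    rw [Finset.sum_add_distrib, ← hτ, Finset.sum_const, Finset.card_range,
      ← Nat.cast_smul_eq_nsmul ℝ, hs', smul_smul, mul_inv_cancel₀ hL0.ne', one_smul]
    abel
  have hx : ∀ j, ∃ x, (A ^ L).symm x - x = (A ^ j).symm (t j + s') - (t j + s') := fun j =>
    inv_pow_sub_mem (U := ⊤) (fun _ _ => trivial) (fun _ _ => trivial)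
      (fun v _ hv => hR.inj hL1 hv) trivial j
  choose x hx using hx
  obtain ⟨z, hz⟩ := block_point hω hA hAb hAb' ht (s' := s') (N := L) (p := p)
    (x := ∑ j ∈ Finset.range L, x j) (fun x hx => hR.neg hL1 hx) (by
      rw [map_sum, ← Finset.sum_sub_distrib, Finset.sum_congr rfl fun j _ => hx j,
        Finset.sum_sub_distrib, hsum]
      abel)
  refine ⟨A s', ?_, M, hM1, z, p, (ZSpan.floor b τ).2, hz⟩
  have h1 : ‖s'‖ ≤ (L : ℝ)⁻¹ * ∑ i, ‖b i‖ := by
    rw [hs', norm_smul, norm_inv, Real.norm_natCast]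
    gcongr
    rw [norm_sub_rev]
    exact ZSpan.norm_fract_le b τ
  calc ‖A s'‖ ≤ ‖(A : V →L[ℝ] V)‖ * ‖s'‖ := (A : V →L[ℝ] V).le_opNorm s'
    _ ≤ ‖(A : V →L[ℝ] V)‖ * ((L : ℝ)⁻¹ * ∑ i, ‖b i‖) := by gcongr
    _ = ‖(A : V →L[ℝ] V)‖ * (∑ i, ‖b i‖) / L := by
      rw [div_eq_mul_inv]
      ring
    _ ≤ ‖(A : V →L[ℝ] V)‖ * (∑ i, ‖b i‖) / M := by
      have : 0 ≤ ∑ i, ‖b i‖ := Finset.sum_nonneg fun _ _ => norm_nonneg _
      gcongr
    _ < ε := by
      rw [div_lt_iff₀ hM0]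
      rw [div_lt_iff₀ hε] at hM
      linarith

theorem sum_tele (A : V ≃L[ℝ] V) (y : V) (N : ℕ) :
    ∑ j ∈ Finset.range N, (A ^ j).symm (A y - y) = (A ^ N).symm (-(A y)) - (-(A y)) := by
  induction N with
  | zero =>
    rw [Finset.range_zero, Finset.sum_empty]
    change (0 : V) = -(A y) - -(A y)
    rw [sub_self]
  | succ N ih =>
    rw [Finset.sum_range_succ, ih]
    have h2 : (A ^ (N + 1)).symm (-(A y)) = (A ^ N).symm (A.symm (-(A y))) := by
      rw [pow_succ']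
      rfl
    rw [h2, map_neg A.symm, A.symm_apply_apply, map_sub, map_neg, map_neg]
    abel

theorem const_block (hω : IsSympForm ω) {A : V ≃L[ℝ] V} (hA : ∀ u v, ω (A u) (A v) = ω u v)
    (hAb : ∀ i, A (b i) ∈ Submodule.span ℤ (Set.range b))
    (hAb' : ∀ i, A.symm (b i) ∈ Submodule.span ℤ (Set.range b))
    {g : V → V} (hg : ∃ t, IsChain ω b g t) {ε : ℝ} (hε : 0 < ε) :
    ∃ s, ‖s‖ < ε ∧ ∃ M : ℕ, 1 ≤ M ∧ ∃ z, ∃ p ∈ Submodule.span ℤ (Set.range b),
      itr (fun _ z => A (g z)) s M z = z + p := by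
  obtain ⟨t, ht⟩ := hg
  obtain ⟨k, hk, hk2⟩ := exists_full_period A
  obtain ⟨d, hd⟩ := exists_decomp A
  obtain ⟨D, hD0, hD⟩ := VN_cocompact b hAb d
  obtain ⟨u, hu, y, hy⟩ := hd t
  obtain ⟨m, hm⟩ := exists_nat_gt (‖(A : V →L[ℝ] V)‖ * D / ε)
  have hm0 : (0 : ℝ) < m := lt_of_le_of_lt (by positivity) hm
  have hm1 : 1 ≤ m := by exact_mod_cast hm0
  set L := k * m with hL
  have hL1 : 1 ≤ L := Nat.one_le_iff_ne_zero.2 (by positivity)
  have hL0 : (0 : ℝ) < L := by exact_mod_cast hL1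
  have hmL : (m : ℝ) ≤ L := by
    rw [hL]
    push_cast
    have : (1 : ℝ) ≤ k := by exact_mod_cast hk
    nlinarith
  obtain ⟨p, hp, hpV, hpD⟩ := hD ((L : ℝ) • u) (Submodule.smul_mem _ _ hu)
  set s' : V := (L : ℝ)⁻¹ • p - u with hs'
  have hw : (L : ℝ)⁻¹ • p ∈ VN A d := Submodule.smul_mem _ _ hpV
  have hx : ∀ j, ∃ x, (A ^ L).symm x - x =
      (A ^ j).symm ((L : ℝ)⁻¹ • p) - (L : ℝ)⁻¹ • p := fun j =>
    inv_pow_sub_mem (U := VN A d) VN_inv.1 VN_inv.2 (TT_inj_VN hL1 d) hw j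
  choose x hx using hx
  obtain ⟨z, hz⟩ := block_point hω hA hAb hAb' (g := fun _ => g) (fun _ => ht) (s' := s')
    (N := L) (p := p) (x := ∑ j ∈ Finset.range L, x j + -(A y)) (by
      intro x hx
      have h1 := hk2 (2 * L) (by omega) x (pow_neg_eq hx)
      have h2 : (A ^ L) x = x := by
        rw [hL, pow_mul]
        exact fixed_pow h1 m
      rw [h2] at hx
      exact eq_zero_of_neg hx) (by
      have h1 : t + s' = (L : ℝ)⁻¹ • p + (A y - y) := by
        rw [hs', hy]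
        abel
      simp only [h1, map_add, Finset.sum_add_distrib]
      rw [sum_tele A y L, map_sum]
      have h3 : ∑ j ∈ Finset.range L, (A ^ j).symm ((L : ℝ)⁻¹ • p) =
          p + (∑ j ∈ Finset.range L, (A ^ L).symm (x j) - ∑ j ∈ Finset.range L, x j) := by
        rw [← Finset.sum_sub_distrib, Finset.sum_congr rfl fun j _ => hx j,
          Finset.sum_sub_distrib, Finset.sum_const, Finset.card_range,
          ← Nat.cast_smul_eq_nsmul ℝ, smul_smul, mul_inv_cancel₀ hL0.ne', one_smul]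
        abel
      rw [h3]
      abel)
  refine ⟨A s', ?_, L, hL1, z, p, hp, hz⟩
  have h1 : ‖s'‖ ≤ (L : ℝ)⁻¹ * D := by
    have h2 : s' = (L : ℝ)⁻¹ • (p - (L : ℝ) • u) := by
      rw [hs', smul_sub, smul_smul, inv_mul_cancel₀ hL0.ne', one_smul]
    rw [h2, norm_smul, norm_inv, Real.norm_natCast, norm_sub_rev]
    gcongr
  calc ‖A s'‖ ≤ ‖(A : V →L[ℝ] V)‖ * ‖s'‖ := (A : V →L[ℝ] V).le_opNorm s'
    _ ≤ ‖(A : V →L[ℝ] V)‖ * ((L : ℝ)⁻¹ * D) := by gcongr
    _ = ‖(A : V →L[ℝ] V)‖ * D / L := by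
      rw [div_eq_mul_inv]
      ring
    _ ≤ ‖(A : V →L[ℝ] V)‖ * D / m := by
      gcongr
    _ < ε := by
      rw [div_lt_iff₀ hm0]
      rw [div_lt_iff₀ hε] at hm
      linarith

end Pool.Agent.T6.H48.CZ.Mid
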