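import Mathlib

/-!
# Towers of circle and torus extensions: definitions
-/

set_option autoImplicit false

open Set

namespace Pool.Agent.T6.H48.CZ

/-- Integer vectors. -/
def IsInt {ι : Type*} (v : ι → ℝ) : Prop := ∀ i, ∃ n : ℤ, v i = n

/-- The coordinates of level `k`. -/
abbrev Lv {ι : Type*} (lev : ι → ℕ) (k : ℕ) : Type _ := {i : ι // lev i = k}

/-- The point `v` with the coordinates of level `k` replaced by `y`. -/
def glue {ι : Type*} (lev : ι → ℕ) (k : ℕ) (v : ι → ℝ) (y : Lv lev k → ℝ) : ι → ℝ :=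
  fun i => if h : lev i = k then y ⟨i, h⟩ else v i

/-- The `k`-th fibre map of `F` at `v`: the coordinates of level `k` of `F` as a function of the
coordinates of level `k`, the other coordinates being those of `v`. -/
def fib {ι : Type*} (lev : ι → ℕ) (F : (ι → ℝ) → (ι → ℝ)) (k : ℕ) (v : ι → ℝ)
    (y : Lv lev k → ℝ) : Lv lev k → ℝ := fun i => F (glue lev k v y) i

/-- Lifts of orientation preserving homeomorphisms of the circle. -/
def IsCircMap {κ : Type*} (f : (κ → ℝ) → (κ → ℝ)) : Prop :=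
  Monotone f ∧ ∀ y p, IsInt p → f (y + p) = f y + p

/-- Constant symplectic forms. -/
structure IsSympForm {κ : Type*} (ω : (κ → ℝ) →ₗ[ℝ] (κ → ℝ) →ₗ[ℝ] ℝ) : Prop where
  alt : ∀ v, ω v v = 0
  nondeg : ∀ v, (∀ u, ω v u = 0) → v = 0

/-- Linear automorphisms of the torus. -/
def IsAut {κ : Type*} (A : (κ → ℝ) ≃ₗ[ℝ] (κ → ℝ)) : Prop := ∀ p, IsInt p ↔ IsInt (A p)

/-- The directional derivative. -/
noncomputable def dv {κ : Type*} [Fintype κ] (f : (κ → ℝ) → (κ → ℝ)) (x u : κ → ℝ) : κ → ℝ :=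
  fderiv ℝ f x u

/-- `c_t`, `t ∈ [0, 1]`, are lifts of torus diffeomorphisms which act trivially on the homology,
and `c_t` and its derivative depend continuously on `t` and the point. -/
def IsC1Isotopy {κ : Type*} [Fintype κ] (c : ℝ → (κ → ℝ) ≃ (κ → ℝ)) : Prop :=
  (∀ t ∈ Icc (0 : ℝ) 1, Differentiable ℝ (c t) ∧ Differentiable ℝ (c t).symm) ∧
    ContinuousOn (fun q : ℝ × (κ → ℝ) => c q.1 q.2) (Icc (0 : ℝ) 1 ×ˢ univ) ∧
    (∀ u, ContinuousOn (fun q : ℝ × (κ → ℝ) => dv (c q.1) q.2 u) (Icc (0 : ℝ) 1 ×ˢ univ)) ∧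
    ∀ t ∈ Icc (0 : ℝ) 1, ∀ x p, IsInt p → c t (x + p) = c t x + p

/-- `f` is the lift of a `C¹` diffeomorphism of the torus which is isotopic to the linear
automorphism `A` through diffeomorphisms which preserve the constant symplectic form `ω`: there is a
`C¹` isotopy `c_t`, `t ∈ [0, 1]`, of lifts of diffeomorphisms which preserve `ω` with
`c_0 = id` and `f = A ∘ c_1`. -/
def IsSympMap {κ : Type*} [Fintype κ] (ω : (κ → ℝ) →ₗ[ℝ] (κ → ℝ) →ₗ[ℝ] ℝ)
    (A : (κ → ℝ) ≃ₗ[ℝ] (κ → ℝ)) (f : (κ → ℝ) → (κ → ℝ)) : Prop :=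
  ∃ c : ℝ → (κ → ℝ) ≃ (κ → ℝ), IsC1Isotopy c ∧ ⇑(c 0) = id ∧ (∀ x, f x = A (c 1 x)) ∧
    ∀ t ∈ Icc (0 : ℝ) 1, ∀ x u v, ω (dv (c t) x u) (dv (c t) x v) = ω u v

/-- `1` is the only root of unity among the eigenvalues of `A`. -/
def OneRoot {κ : Type*} (A : (κ → ℝ) ≃ₗ[ℝ] (κ → ℝ)) : Prop :=
  ∀ N : ℕ, 1 ≤ N → ∀ v, A^[N] v = v → A v = v

/-- No eigenvalue of `A` is a root of unity. -/
def NoRoot {κ : Type*} (A : (κ → ℝ) ≃ₗ[ℝ] (κ → ℝ)) : Prop :=
  ∀ N : ℕ, 1 ≤ N → ∀ v, A^[N] v = v → v = 0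

/-- The `k`-th level of `F` is a circle extension. -/
def CircLevel {ι : Type*} (lev : ι → ℕ) (F : (ι → ℝ) → (ι → ℝ)) (k : ℕ) : Prop :=
  (∃ i₀ : Lv lev k, ∀ i, i = i₀) ∧ ∀ v, IsCircMap (fib lev F k v)

/-- The `k`-th level of `F` is a symplectic torus extension: the fibre maps preserve a constant
symplectic form `ω` and are isotopic, through symplectic diffeomorphisms, to a linear automorphism
`A` of the torus, which is arbitrary at the lowest level `k = 0` and has no root of unity other than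
`1` as an eigenvalue for `k > 0`. -/
def SympLevel {ι : Type*} [Fintype ι] (lev : ι → ℕ) (F : (ι → ℝ) → (ι → ℝ)) (k : ℕ) : Prop :=
  ∃ (ω : (Lv lev k → ℝ) →ₗ[ℝ] (Lv lev k → ℝ) →ₗ[ℝ] ℝ) (A : (Lv lev k → ℝ) ≃ₗ[ℝ] (Lv lev k → ℝ)),
    IsSympForm ω ∧ (∀ u v, ω (A u) (A v) = ω u v) ∧ IsAut A ∧ (k = 0 ∨ OneRoot A) ∧
    ∀ v, IsSympMap ω A (fib lev F k v)

/-- The `k`-th level of `F` is a torus extension with arbitrary fibre maps homotopic to a linear
automorphism `A` of the torus no eigenvalue of which is a root of unity. -/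
def LefLevel {ι : Type*} (lev : ι → ℕ) (F : (ι → ℝ) → (ι → ℝ)) (k : ℕ) : Prop :=
  ∃ A : (Lv lev k → ℝ) ≃ₗ[ℝ] (Lv lev k → ℝ), IsAut A ∧ NoRoot A ∧
    ∀ v y p, IsInt p → fib lev F k v (y + p) = fib lev F k v y + A p

/-- Towers of circle extensions and torus extensions. -/
def IsSympTower {ι : Type*} [Fintype ι] (lev : ι → ℕ) (F : (ι → ℝ) → (ι → ℝ)) : Prop :=
  (∀ i v w, (∀ j, lev j ≤ lev i → v j = w j) → F v i = F w i) ∧
    ∀ k, (∃ i, lev i = k) → CircLevel lev F k ∨ SympLevel lev F k ∨ LefLevel lev F k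

end Pool.Agent.T6.H48.CZ
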