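import Pool.Agent.T6.H48.CZ.Loop

/-!
# Symplectic isotopies are chains of maps with periodic generating functions
-/

set_option autoImplicit false

open Set Filter Topology

namespace Pool.Agent.T6.H48.CZ.Mid

variable {V : Type*} [NormedAddCommGroup V] [NormedSpace ℝ V] [FiniteDimensional ℝ V]
variable {κ : Type*} [Fintype κ]

theorem exists_fract (b : Module.Basis κ ℝ V) (x : V) :
    ∃ l ∈ Submodule.span ℤ (Set.range b), ∃ y, ‖y‖ ≤ ∑ i, ‖b i‖ ∧ x = y + l :=
  ⟨ZSpan.floor b x, (ZSpan.floor b x).2, ZSpan.fract b x, ZSpan.norm_fract_le b x, by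
    rw [ZSpan.fract_apply, sub_add_cancel]⟩

theorem isChain_of_isotopy {ω : V →L[ℝ] V →L[ℝ] ℝ} (hω : IsSympForm ω)
    (b : Module.Basis κ ℝ V) {c : ℝ → V ≃ V} (h0 : ⇑(c 0) = id)
    (hd : ∀ t ∈ Icc (0 : ℝ) 1, Differentiable ℝ (c t))
    (hd' : ∀ t ∈ Icc (0 : ℝ) 1, Differentiable ℝ (c t).symm)
    (hc : ContinuousOn (fun q : ℝ × V => fderiv ℝ (c q.1) q.2) (Icc (0 : ℝ) 1 ×ˢ univ))
    (hp : ∀ t ∈ Icc (0 : ℝ) 1, ∀ i x, c t (x + b i) = c t x + b i)
    (hs : ∀ t ∈ Icc (0 : ℝ) 1, ∀ x u v,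
      ω (fderiv ℝ (c t) x u) (fderiv ℝ (c t) x v) = ω u v) :
    ∃ s, IsChain ω b (c 1) s := by
  have := FiniteDimensional.proper_real V
  -- periodicity of the derivative
  have hper : ∀ t ∈ Icc (0 : ℝ) 1, ∀ l ∈ Submodule.span ℤ (Set.range b), ∀ x,
      fderiv ℝ (c t) (x + l) = fderiv ℝ (c t) x := by
    intro t ht
    refine per_span b fun i x => ?_
    rw [← fderiv_comp_add_right]
    have h1 : (fun x => c t (x + b i)) = fun x => c t x + b i := funext fun x => hp t ht i x
    rw [h1, fderiv_add_const]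
  have hinj : ∀ t ∈ Icc (0 : ℝ) 1, ∀ x v, fderiv ℝ (c t) x v = 0 → v = 0 := by
    intro t ht x v hv
    refine hω.nondeg _ fun u => ?_
    rw [← hs t ht x, hv, map_zero]
    rfl
  -- lower bound for the derivative
  obtain ⟨ρ, hρ, hlow⟩ : ∃ ρ : ℝ, 0 < ρ ∧ ∀ t ∈ Icc (0 : ℝ) 1, ∀ x v,
      ρ * ‖v‖ ≤ ‖fderiv ℝ (c t) x v‖ := by
    rcases subsingleton_or_nontrivial V with hV | hV
    · refine ⟨1, one_pos, fun t _ x v => ?_⟩
      rw [Subsingleton.elim v 0]
      simp
    · have hK : IsCompact (Icc (0 : ℝ) 1 ×ˢ (Metric.closedBall (0 : V) (∑ i, ‖b i‖) ×ˢ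
          Metric.sphere (0 : V) 1)) :=
        isCompact_Icc.prod ((isCompact_closedBall _ _).prod (isCompact_sphere _ _))
      have hne : (Icc (0 : ℝ) 1 ×ˢ (Metric.closedBall (0 : V) (∑ i, ‖b i‖) ×ˢ
          Metric.sphere (0 : V) 1)).Nonempty :=
        ⟨(0, (0, (exists_norm_eq V zero_le_one).choose)), by
          refine ⟨⟨le_rfl, zero_le_one⟩, ?_, ?_⟩
          · exact Metric.mem_closedBall_self (Finset.sum_nonneg fun _ _ => norm_nonneg _)
          · rw [mem_sphere_zero_iff_norm]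
            exact (exists_norm_eq V zero_le_one).choose_spec⟩
      have hcont : ContinuousOn (fun q : ℝ × V × V => ‖fderiv ℝ (c q.1) q.2.1 q.2.2‖)
          (Icc (0 : ℝ) 1 ×ˢ (Metric.closedBall (0 : V) (∑ i, ‖b i‖) ×ˢ
          Metric.sphere (0 : V) 1)) := by
        have h1 : ContinuousOn (fun q : ℝ × V × V => fderiv ℝ (c q.1) q.2.1)
            (Icc (0 : ℝ) 1 ×ˢ (Metric.closedBall (0 : V) (∑ i, ‖b i‖) ×ˢ
            Metric.sphere (0 : V) 1)) :=
          hc.comp (continuous_fst.prodMk (continuous_fst.comp continuous_snd)).continuousOn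
            (fun q hq => ⟨hq.1, mem_univ _⟩)
        exact (h1.clm_apply (continuous_snd.comp continuous_snd).continuousOn).norm
      obtain ⟨q₀, hq₀, hmin⟩ := hK.exists_isMinOn hne hcont
      refine ⟨‖fderiv ℝ (c q₀.1) q₀.2.1 q₀.2.2‖, ?_, ?_⟩
      · rw [norm_pos_iff]
        intro h
        have h1 := hinj _ hq₀.1 _ _ h
        have h2 : ‖q₀.2.2‖ = 1 := mem_sphere_zero_iff_norm.1 hq₀.2.2
        rw [h1, norm_zero] at h2
        exact zero_ne_one h2
      · intro t ht x v
        rcases eq_or_ne v 0 with rfl | hv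
        · simp
        · obtain ⟨l, hl, y, hy, rfl⟩ := exists_fract b x
          rw [hper t ht l hl]
          have hv' : 0 < ‖v‖ := norm_pos_iff.2 hv
          have h1 : (t, y, ‖v‖⁻¹ • v) ∈ (Icc (0 : ℝ) 1 ×ˢ
              (Metric.closedBall (0 : V) (∑ i, ‖b i‖) ×ˢ Metric.sphere (0 : V) 1)) := by
            refine ⟨ht, mem_closedBall_zero_iff.2 hy, mem_sphere_zero_iff_norm.2 ?_⟩
            rw [norm_smul, norm_inv, norm_norm, inv_mul_cancel₀ hv'.ne']
          have h2 := hmin h1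
          have h3 : ‖fderiv ℝ (c q₀.1) q₀.2.1 q₀.2.2‖ ≤ ‖fderiv ℝ (c t) y (‖v‖⁻¹ • v)‖ := h2
          rw [map_smul, norm_smul, norm_inv, norm_norm, inv_mul_eq_div, le_div_iff₀ hv'] at h3
          exact h3
  -- uniform continuity in `t`
  obtain ⟨δ, hδ, huc⟩ : ∃ δ : ℝ, 0 < δ ∧ ∀ t ∈ Icc (0 : ℝ) 1, ∀ t' ∈ Icc (0 : ℝ) 1, |t - t'| < δ →
      ∀ x, ‖fderiv ℝ (c t') x - fderiv ℝ (c t) x‖ ≤ ρ / 4 := by
    have hK : IsCompact (Icc (0 : ℝ) 1 ×ˢ Metric.closedBall (0 : V) (∑ i, ‖b i‖)) :=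
      isCompact_Icc.prod (isCompact_closedBall _ _)
    have h1 := hK.uniformContinuousOn_of_continuous
      (hc.mono (prod_mono le_rfl (subset_univ _)))
    rw [Metric.uniformContinuousOn_iff] at h1
    obtain ⟨δ, hδ, h2⟩ := h1 (ρ / 4) (by positivity)
    refine ⟨δ, hδ, fun t ht t' ht' htt x => ?_⟩
    obtain ⟨l, hl, y, hy, rfl⟩ := exists_fract b x
    rw [hper t ht l hl, hper t' ht' l hl]
    have h3 := h2 (t', y) ⟨ht', mem_closedBall_zero_iff.2 hy⟩ (t, y)
      ⟨ht, mem_closedBall_zero_iff.2 hy⟩ (by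
        rw [Prod.dist_eq, dist_self, max_eq_left dist_nonneg, dist_comm]
        exact htt)
    rw [dist_eq_norm] at h3
    exact h3.le
  -- one step
  have hstep : ∀ t ∈ Icc (0 : ℝ) 1, ∀ t' ∈ Icc (0 : ℝ) 1, |t - t'| < δ →
      ∃ s, IsChain ω b (fun z => c t' ((c t).symm z)) s := by
    intro t ht t' ht' htt
    have hMN : ∀ z v, fderiv ℝ (c t) ((c t).symm z) (fderiv ℝ (c t).symm z v) = v := by
      intro z v
      have h1 : HasFDerivAt (fun z => c t ((c t).symm z))
          ((fderiv ℝ (c t) ((c t).symm z)).comp (fderiv ℝ (c t).symm z)) z :=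
        (hd t ht _).hasFDerivAt.comp z (hd' t ht z).hasFDerivAt
      have h2 : (fun z => c t ((c t).symm z)) = fun z => z :=
        funext fun z => (c t).apply_symm_apply z
      rw [h2] at h1
      have h3 := h1.unique (hasFDerivAt_id z)
      have h4 := congrArg (fun l : V →L[ℝ] V => l v) h3
      exact h4
    obtain ⟨g, hg⟩ := exists_GFd (f := fun z => c t' ((c t).symm z))
      (f' := fun z => (fderiv ℝ (c t') ((c t).symm z)).comp (fderiv ℝ (c t).symm z)) hω b
      (fun z => (hd t' ht' _).hasFDerivAt.comp z (hd' t ht z).hasFDerivAt)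
      (by
        intro z
        refine ContinuousLinearMap.opNorm_le_bound _ (by norm_num) fun v => ?_
        have e : ((fderiv ℝ (c t') ((c t).symm z)).comp (fderiv ℝ (c t).symm z) -
            ContinuousLinearMap.id ℝ V) v =
            (fderiv ℝ (c t') ((c t).symm z) - fderiv ℝ (c t) ((c t).symm z))
              (fderiv ℝ (c t).symm z v) := by
          rw [sub_apply, sub_apply, hMN]
          rfl
        rw [e]
        refine (ContinuousLinearMap.le_opNorm _ _).trans ?_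
        have h1 := hlow t ht ((c t).symm z) (fderiv ℝ (c t).symm z v)
        rw [hMN] at h1
        calc _ ≤ ρ / 4 * ‖fderiv ℝ (c t).symm z v‖ := by
              gcongr
              exact huc t ht t' ht' htt _
          _ = 1 / 4 * (ρ * ‖fderiv ℝ (c t).symm z v‖) := by ring
          _ ≤ 1 / 4 * ‖v‖ := by gcongr)
      (by
        intro z u v
        rw [ContinuousLinearMap.comp_apply, ContinuousLinearMap.comp_apply, hs t' ht',
          ← hs t ht ((c t).symm z), hMN, hMN])
      (by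
        intro i z
        have h1 : (c t).symm (z + b i) = (c t).symm z + b i := by
          apply (c t).injective
          rw [(c t).apply_symm_apply, hp t ht, (c t).apply_symm_apply]
        change c t' ((c t).symm (z + b i)) = _
        rw [h1, hp t' ht'])
    refine ⟨g.s, ?_⟩
    have h1 := isChain_GFd g
    rw [hg] at h1
    exact h1
  -- all steps
  obtain ⟨n, hn⟩ := exists_nat_one_div_lt hδ
  have hall : ∀ k ≤ n + 1, ∃ s, IsChain ω b (c ((k : ℝ) / (n + 1))) s := by
    intro k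
    induction k with
    | zero =>
      intro _
      refine ⟨0, ?_⟩
      rw [Nat.cast_zero, zero_div, h0]
      exact isChain_id
    | succ k ih =>
      intro hk
      obtain ⟨s, hs1⟩ := ih (by omega)
      have hn0 : (0 : ℝ) < n + 1 := by positivity
      obtain ⟨s', hs2⟩ := hstep ((k : ℝ) / (n + 1)) ⟨by positivity, by
          rw [div_le_one hn0]
          have : (k : ℝ) + 1 ≤ n + 1 := by exact_mod_cast hk
          linarith⟩ (((k + 1 : ℕ) : ℝ) / (n + 1)) ⟨by positivity, by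
          rw [div_le_one hn0]
          exact_mod_cast hk⟩ (by
          rw [← sub_div]
          push_cast
          rw [show (k : ℝ) - (k + 1) = -1 by ring, neg_div, abs_neg, abs_of_pos (by positivity)]
          exact hn)
      refine ⟨s + s', ?_⟩
      have h1 := hs1.comp hs2
      have h2 : (fun z => c (((k + 1 : ℕ) : ℝ) / (n + 1)) ((c ((k : ℝ) / (n + 1))).symm z)) ∘
          (c ((k : ℝ) / (n + 1))) = c (((k + 1 : ℕ) : ℝ) / (n + 1)) := by
        funext z
        simp
      rw [h2] at h1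
      exact h1
  obtain ⟨s, hs1⟩ := hall (n + 1) le_rfl
  refine ⟨s, ?_⟩
  have h1 : (((n + 1 : ℕ) : ℝ) / (n + 1)) = 1 := by
    push_cast
    exact div_self (by positivity)
  rw [h1] at hs1
  exact hs1

end Pool.Agent.T6.H48.CZ.Mid
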