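import Pool.Agent.T6.H48.CZ.Iso

/-!
# Linear algebra: kernels of integer maps, powers of automorphisms
-/

set_option autoImplicit false

open Set Filter Topology

namespace Pool.Agent.T6.H48.CZ.Mid

variable {V : Type*} [NormedAddCommGroup V] [NormedSpace ℝ V] [FiniteDimensional ℝ V]
variable {κ : Type*} [Fintype κ]

theorem latt_discrete (b : Module.Basis κ ℝ V) : ∃ δ : ℝ, 0 < δ ∧
    ∀ l ∈ Submodule.span ℤ (Set.range b), ‖l‖ < δ → l = 0 := by
  set e : V →L[ℝ] (κ → ℝ) := (b.equivFunL : V →L[ℝ] (κ → ℝ)) with he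
  have h3 : (0 : ℝ) < ‖e‖ + 1 := by positivity
  refine ⟨(‖e‖ + 1)⁻¹, by positivity, fun l hl hlt => ?_⟩
  have h1 := e.le_opNorm l
  have h2 : ‖e l‖ < 1 := by
    have h4 : (‖e‖ + 1) * ‖l‖ < (‖e‖ + 1) * (‖e‖ + 1)⁻¹ := by gcongr
    rw [mul_inv_cancel₀ h3.ne'] at h4
    nlinarith [norm_nonneg l]
  have h5 : e l = 0 := by
    funext i
    obtain ⟨k, hk⟩ := (Module.Basis.mem_span_iff_repr_mem ℤ b l).1 hl i
    have h6 : e l i = b.repr l i := rfl
    have h7 : ‖e l i‖ < 1 := (norm_le_pi_norm (e l) i).trans_lt h2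
    rw [h6, ← hk] at h7 ⊢
    have h8 : |(k : ℝ)| < 1 := h7
    have h9 : |k| < 1 := by exact_mod_cast h8
    have h10 : k = 0 := Int.abs_lt_one_iff.1 h9
    rw [h10]
    simp
  have h6 : b.equivFunL l = 0 := h5
  exact (map_eq_zero_iff _ b.equivFunL.injective).1 h6

/-- Dirichlet's approximation -/
theorem dirichlet (b : Module.Basis κ ℝ V) (c : V) {ε : ℝ} (hε : 0 < ε) :
    ∃ q : ℕ, 1 ≤ q ∧ ∃ l ∈ Submodule.span ℤ (Set.range b), ‖(q : ℝ) • c - l‖ < ε := by
  have := FiniteDimensional.proper_real V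
  have hK : IsCompact (Metric.closedBall (0 : V) (∑ i, ‖b i‖)) := isCompact_closedBall _ _
  obtain ⟨a, -, φ, hφ, ha⟩ := hK.tendsto_subseq (x := fun n : ℕ => ZSpan.fract b ((n : ℝ) • c))
    (fun n => mem_closedBall_zero_iff.2 (ZSpan.norm_fract_le b _))
  rw [Metric.tendsto_atTop] at ha
  obtain ⟨N, hN⟩ := ha (ε / 2) (by positivity)
  have h1 := hN N le_rfl
  have h2 := hN (N + 1) (by omega)
  have h3 : φ N < φ (N + 1) := hφ (by omega)
  refine ⟨φ (N + 1) - φ N, by omega, ZSpan.floor b ((φ (N + 1) : ℝ) • c) -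
    ZSpan.floor b ((φ N : ℝ) • c), sub_mem (ZSpan.floor b _).2 (ZSpan.floor b _).2, ?_⟩
  have h4 : ((φ (N + 1) - φ N : ℕ) : ℝ) • c - ((ZSpan.floor b ((φ (N + 1) : ℝ) • c) : V) -
    (ZSpan.floor b ((φ N : ℝ) • c) : V)) = ZSpan.fract b ((φ (N + 1) : ℝ) • c) -
      ZSpan.fract b ((φ N : ℝ) • c) := by
    rw [Nat.cast_sub h3.le, sub_smul, ZSpan.fract_apply, ZSpan.fract_apply]
    abel
  rw [h4, ← dist_eq_norm]
  calc _ ≤ dist (ZSpan.fract b ((φ (N + 1) : ℝ) • c)) a + dist (ZSpan.fract b ((φ N : ℝ) • c)) a :=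
        dist_triangle_right _ _ _
    _ < ε / 2 + ε / 2 := add_lt_add h2 h1
    _ = ε := add_halves ε

theorem latt_map (b : Module.Basis κ ℝ V) {B : V →L[ℝ] V}
    (hB : ∀ i, B (b i) ∈ Submodule.span ℤ (Set.range b)) :
    ∀ l ∈ Submodule.span ℤ (Set.range b), B l ∈ Submodule.span ℤ (Set.range b) := by
  intro l hl
  induction hl using Submodule.span_induction with
  | mem x hx =>
    obtain ⟨i, rfl⟩ := hx
    exact hB i
  | zero => rw [map_zero]; exact zero_mem _
  | add x y _ _ hx hy => rw [map_add]; exact add_mem hx hy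
  | smul a x _ hx => rw [map_zsmul]; exact Submodule.smul_mem _ _ hx

/-- The lattice vectors in the kernel of an integer map are cocompact in the kernel. -/
theorem ker_cocompact (b : Module.Basis κ ℝ V) {B : V →L[ℝ] V}
    (hB : ∀ l ∈ Submodule.span ℤ (Set.range b), B l ∈ Submodule.span ℤ (Set.range b)) :
    ∃ D : ℝ, 0 ≤ D ∧ ∀ c, B c = 0 → ∃ l ∈ Submodule.span ℤ (Set.range b), B l = 0 ∧ ‖c - l‖ ≤ D := by
  classical
  obtain ⟨δ, hδ, hdis⟩ := latt_discrete b
  set S : Set V := {l | l ∈ Submodule.span ℤ (Set.range b) ∧ B l = 0} with hS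
  -- the kernel is spanned by lattice vectors
  have hspan : ∀ c, B c = 0 → c ∈ Submodule.span ℝ S := by
    intro c hc
    have hcl : IsClosed (Submodule.span ℝ S : Set V) := Submodule.closed_of_finiteDimensional _
    have h1 : c ∈ closure (Submodule.span ℝ S : Set V) := by
      rw [Metric.mem_closure_iff]
      intro ε hε
      obtain ⟨q, hq, l, hl, hlq⟩ := dirichlet b c (lt_min hε (by positivity : 0 < δ / (‖B‖ + 1)))
      have h2 : B l = 0 := by
        apply hdis _ (hB l hl)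
        have h3 : B l = -B ((q : ℝ) • c - l) := by
          rw [map_sub, map_smul, hc, smul_zero, zero_sub, neg_neg]
        rw [h3, norm_neg]
        calc _ ≤ ‖B‖ * ‖(q : ℝ) • c - l‖ := B.le_opNorm _
          _ ≤ ‖B‖ * (δ / (‖B‖ + 1)) := by
            gcongr
            exact (hlq.trans_le (min_le_right _ _)).le
          _ < δ := by
            rw [mul_div_assoc', div_lt_iff₀ (by positivity)]
            nlinarith [norm_nonneg B]
      have hq0 : (0 : ℝ) < q := by exact_mod_cast hq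
      refine ⟨(q : ℝ)⁻¹ • l, Submodule.smul_mem _ _ (Submodule.subset_span ⟨hl, h2⟩), ?_⟩
      have h3 : c - (q : ℝ)⁻¹ • l = (q : ℝ)⁻¹ • ((q : ℝ) • c - l) := by
        rw [smul_sub, smul_smul, inv_mul_cancel₀ hq0.ne', one_smul]
      rw [dist_eq_norm, h3, norm_smul, norm_inv, Real.norm_natCast]
      have h4 : (q : ℝ)⁻¹ ≤ 1 := inv_le_one_of_one_le₀ (by exact_mod_cast hq)
      calc _ ≤ 1 * ‖(q : ℝ) • c - l‖ := by gcongr
        _ < ε := by rw [one_mul]; exact hlq.trans_le (min_le_left _ _)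
    rw [hcl.closure_eq] at h1
    exact h1
  obtain ⟨s, hsS, hs, hli⟩ := exists_linearIndependent ℝ S
  have hfin : s.Finite := hli.setFinite
  refine ⟨∑ x ∈ hfin.toFinset, ‖x‖, Finset.sum_nonneg fun _ _ => norm_nonneg _, fun c hc => ?_⟩
  have h1 := hspan c hc
  rw [← hs] at h1
  have h2 : c ∈ Submodule.span ℝ ((hfin.toFinset : Finset V) : Set V) := by
    rw [hfin.coe_toFinset]; exact h1
  obtain ⟨f, -, hf⟩ := Submodule.mem_span_finset.1 h2
  have hmem : ∀ x ∈ hfin.toFinset, x ∈ S := fun x hx => hsS (hfin.mem_toFinset.1 hx)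
  refine ⟨∑ x ∈ hfin.toFinset, ⌊f x⌋ • x, sum_mem fun x hx => ?_, ?_, ?_⟩
  · exact Submodule.smul_mem _ _ (hmem x hx).1
  · rw [map_sum]
    refine Finset.sum_eq_zero fun x hx => ?_
    rw [map_zsmul, (hmem x hx).2, smul_zero]
  · rw [← hf, ← Finset.sum_sub_distrib]
    refine norm_sum_le_of_le _ fun x _ => ?_
    have h3 : f x • x - ⌊f x⌋ • x = Int.fract (f x) • x := by
      rw [← Int.cast_smul_eq_zsmul ℝ, ← sub_smul]
      rfl
    rw [h3, norm_smul, Real.norm_eq_abs, abs_of_nonneg (Int.fract_nonneg _)]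
    calc _ ≤ 1 * ‖x‖ := by gcongr; exact (Int.fract_lt_one _).le
      _ = ‖x‖ := one_mul _

theorem coKer_of_int (b : Module.Basis κ ℝ V) {C : V →L[ℝ] V}
    (hC : ∀ i, C (b i) ∈ Submodule.span ℤ (Set.range b)) : CoKer b C := by
  have h1 : ∀ l ∈ Submodule.span ℤ (Set.range b),
      (C - ContinuousLinearMap.id ℝ V) l ∈ Submodule.span ℤ (Set.range b) := by
    intro l hl
    exact sub_mem (latt_map b hC l hl) hl
  obtain ⟨D, -, hD⟩ := ker_cocompact b h1
  refine ⟨D, fun c hc => ?_⟩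
  obtain ⟨l, hl, hl2, hl3⟩ := hD c (by
    change C c - c = 0
    rw [hc, sub_self])
  refine ⟨-l, neg_mem hl, ?_, ?_⟩
  · have h2 : C l - l = 0 := hl2
    rw [map_neg, sub_eq_zero.1 h2]
  · rw [← sub_eq_add_neg]
    exact hl3

/-! ### powers -/

/-- the sum of the powers -/
noncomputable def TT (A : V ≃L[ℝ] V) (N : ℕ) : V →ₗ[ℝ] V :=
  ∑ j ∈ Finset.range N, ((A ^ j : V ≃L[ℝ] V) : V →L[ℝ] V).toLinearMap

theorem TT_apply (A : V ≃L[ℝ] V) (N : ℕ) (v : V) :
    TT A N v = ∑ j ∈ Finset.range N, (A ^ j) v := by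
  rw [TT, LinearMap.sum_apply]
  rfl

theorem A_TT (A : V ≃L[ℝ] V) (N : ℕ) (v : V) : A (TT A N v) - TT A N v = (A ^ N) v - v := by
  induction N with
  | zero =>
    rw [TT_apply, Finset.range_zero, Finset.sum_empty, map_zero, sub_zero]
    exact (sub_self v).symm
  | succ N ih =>
    rw [TT_apply, Finset.sum_range_succ, ← TT_apply, map_add, pow_succ']
    have h1 : A (TT A N v) = (A ^ N) v - v + TT A N v := by rw [← ih]; abel
    rw [h1]
    change _ = A ((A ^ N) v) - v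
    abel

theorem TT_fixed {A : V ≃L[ℝ] V} {v : V} (hv : A v = v) (N : ℕ) : TT A N v = (N : ℝ) • v := by
  have h : ∀ j : ℕ, (A ^ j) v = v := by
    intro j
    induction j with
    | zero => rfl
    | succ j ih =>
      rw [pow_succ']
      change A ((A ^ j) v) = v
      rw [ih, hv]
  rw [TT_apply, Finset.sum_congr rfl fun j _ => h j, Finset.sum_const, Finset.card_range,
    ← Nat.cast_smul_eq_nsmul ℝ]

theorem inv_pow_sub_mem {A : V ≃L[ℝ] V} {U : Submodule ℝ V} (hU : ∀ v ∈ U, A v ∈ U)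
    (hU' : ∀ v ∈ U, A.symm v ∈ U) {N : ℕ} (hT : ∀ v ∈ U, TT A N v = 0 → v = 0)
    {w : V} (hw : w ∈ U) (j : ℕ) : ∃ x, (A ^ N).symm x - x = (A ^ j).symm w - w := by
  -- `(A ^ j)⁻¹ w - w = A u - u` with `u ∈ U`
  have h1 : ∀ j : ℕ, ∀ w ∈ U, ∃ u ∈ U, (A ^ j).symm w - w = A u - u := by
    intro j
    induction j with
    | zero =>
      intro w _
      refine ⟨0, zero_mem _, ?_⟩
      rw [map_zero, sub_zero]
      change w - w = 0
      exact sub_self w
    | succ j ih =>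
      intro w hw
      obtain ⟨u, hu, hu2⟩ := ih _ (hU' w hw)
      refine ⟨u - A.symm w, sub_mem hu (hU' w hw), ?_⟩
      have h2 : (A ^ (j + 1)).symm w = (A ^ j).symm (A.symm w) := by
        rw [pow_succ']
        rfl
      rw [h2, map_sub, A.apply_symm_apply]
      have h3 : (A ^ j).symm (A.symm w) = A u - u + A.symm w := by rw [← hu2]; abel
      rw [h3]
      abel
  obtain ⟨u, hu, hu2⟩ := h1 j w hw
  -- `T` is surjective on `U`
  have hTU : ∀ v ∈ U, TT A N v ∈ U := by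
    intro v hv
    have h2 : ∀ j : ℕ, (A ^ j) v ∈ U := by
      intro j
      induction j with
      | zero => exact hv
      | succ j ih =>
        rw [pow_succ']
        exact hU _ ih
    rw [TT_apply]
    exact sum_mem fun j _ => h2 j
  have hinj : Function.Injective ((TT A N).restrict hTU) := by
    rw [← LinearMap.ker_eq_bot, LinearMap.ker_eq_bot']
    intro v hv
    have h2 : TT A N v = 0 := congrArg Subtype.val hv
    exact Subtype.ext (hT v v.2 h2)
  obtain ⟨⟨x, hx⟩, hx2⟩ := LinearMap.injective_iff_surjective.1 hinj ⟨u, hu⟩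
  have hx3 : TT A N x = u := congrArg Subtype.val hx2
  refine ⟨-((A ^ N) x), ?_⟩
  rw [hu2, ← hx3, A_TT, map_neg, ContinuousLinearEquiv.symm_apply_apply]
  abel

/-- The only root of unity among the eigenvalues of `A` is `1`: every periodic vector is fixed. -/
def NoRoots (A : V ≃L[ℝ] V) : Prop := ∀ N : ℕ, 1 ≤ N → ∀ v, (A ^ N) v = v → A v = v

theorem NoRoots.inj {A : V ≃L[ℝ] V} (hA : NoRoots A) {N : ℕ} (hN : 1 ≤ N) {v : V}
    (hv : TT A N v = 0) : v = 0 := by
  have h1 := A_TT A N v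
  rw [hv, map_zero, sub_zero] at h1
  have h2 : A v = v := hA N hN v (sub_eq_zero.1 h1.symm)
  rw [TT_fixed h2] at hv
  have h3 : (N : ℝ) ≠ 0 := by
    have : 0 < N := hN
    positivity
  exact (smul_eq_zero_iff_right h3).1 hv

theorem pow_neg_eq {A : V ≃L[ℝ] V} {N : ℕ} {x : V} (h : (A ^ N) x = -x) : (A ^ (2 * N)) x = x := by
  rw [two_mul, pow_add]
  change (A ^ N) ((A ^ N) x) = x
  rw [h, map_neg, h, neg_neg]

theorem fixed_pow {A : V ≃L[ℝ] V} {x : V} (h : A x = x) (N : ℕ) : (A ^ N) x = x := by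
  induction N with
  | zero => rfl
  | succ j ih =>
    rw [pow_succ']
    change A ((A ^ j) x) = x
    rw [ih, h]

theorem eq_zero_of_neg {x : V} (h : x = -x) : x = 0 := by
  have h1 : (2 : ℝ) • x = 0 := by
    rw [two_smul]
    nth_rewrite 2 [h]
    exact add_neg_cancel x
  exact (smul_eq_zero_iff_right two_ne_zero).1 h1

theorem NoRoots.neg {A : V ≃L[ℝ] V} (hA : NoRoots A) {N : ℕ} (hN : 1 ≤ N) {x : V}
    (h : (A ^ N) x = -x) : x = 0 := by
  have h1 := hA (2 * N) (by omega) x (pow_neg_eq h)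
  rw [fixed_pow h1] at h
  exact eq_zero_of_neg h

/-- a power of `A` with all the periodic vectors -/
theorem exists_full_period (A : V ≃L[ℝ] V) : ∃ k : ℕ, 1 ≤ k ∧ ∀ N : ℕ, 1 ≤ N → ∀ v,
    (A ^ N) v = v → (A ^ k) v = v := by
  classical
  let K : ℕ → Submodule ℝ V := fun k =>
    LinearMap.ker (((A ^ k : V ≃L[ℝ] V) : V →L[ℝ] V).toLinearMap - LinearMap.id)
  have hK : ∀ k v, v ∈ K k ↔ (A ^ k) v = v := by
    intro k v
    rw [LinearMap.mem_ker, LinearMap.sub_apply, sub_eq_zero]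
    rfl
  have hmul : ∀ k m v, (A ^ k) v = v → (A ^ (k * m)) v = v := by
    intro k m v h
    rw [pow_mul]
    exact fixed_pow h m
  -- maximal dimension
  obtain ⟨k, hk⟩ : ∃ k : ℕ, ∀ m : ℕ, Module.finrank ℝ (K (m + 1)) ≤ Module.finrank ℝ (K (k + 1)) := by
    by_contra hcon
    push Not at hcon
    have h1 : ∀ n : ℕ, ∃ k, n ≤ Module.finrank ℝ (K (k + 1)) := by
      intro n
      induction n with
      | zero => exact ⟨0, Nat.zero_le _⟩
      | succ n ih =>
        obtain ⟨k, hk⟩ := ih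
        obtain ⟨m, hm⟩ := hcon k
        exact ⟨m, by omega⟩
    obtain ⟨k, hk⟩ := h1 (Module.finrank ℝ V + 1)
    have h2 := Submodule.finrank_le (K (k + 1))
    omega
  refine ⟨k + 1, by omega, fun N hN v hv => ?_⟩
  have h1 : K (k + 1) ≤ K ((k + 1) * N) := fun v hv => (hK _ v).2 (hmul _ _ v ((hK _ v).1 hv))
  have h2 : K (k + 1) = K ((k + 1) * N) := by
    apply Submodule.eq_of_le_of_finrank_le h1
    have h3 := hk ((k + 1) * N - 1)
    have h4 : (k + 1) * N - 1 + 1 = (k + 1) * N := Nat.sub_add_cancel (by nlinarith)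
    rw [h4] at h3
    exact h3
  rw [← hK, h2, hK, mul_comm]
  exact hmul _ _ v hv

/-- the nilpotent part -/
noncomputable def BN (A : V ≃L[ℝ] V) : V →L[ℝ] V := (A : V →L[ℝ] V) - ContinuousLinearMap.id ℝ V

theorem BN_apply (A : V ≃L[ℝ] V) (v : V) : BN A v = A v - v := rfl

theorem BN_comm (A : V ≃L[ℝ] V) (v : V) : BN A (A v) = A (BN A v) := by
  rw [BN_apply, BN_apply, map_sub]

theorem BN_pow_comm (A : V ≃L[ℝ] V) (d : ℕ) (v : V) : (BN A)^[d] (A v) = A ((BN A)^[d] v) := by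
  induction d generalizing v with
  | zero => rfl
  | succ d ih => rw [Function.iterate_succ_apply, Function.iterate_succ_apply, BN_comm, ih]

theorem BN_pow_comm' (A : V ≃L[ℝ] V) (d : ℕ) (v : V) :
    (BN A)^[d] (A.symm v) = A.symm ((BN A)^[d] v) := by
  apply A.injective
  rw [← BN_pow_comm, A.apply_symm_apply, A.apply_symm_apply]

theorem BN_pow_add (A : V ≃L[ℝ] V) (d : ℕ) (v w : V) :
    (BN A)^[d] (v + w) = (BN A)^[d] v + (BN A)^[d] w := by
  induction d generalizing v w with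
  | zero => rfl
  | succ d ih => simp only [Function.iterate_succ_apply, map_add, ih]

theorem BN_pow_smul (A : V ≃L[ℝ] V) (d : ℕ) (c : ℝ) (v : V) :
    (BN A)^[d] (c • v) = c • (BN A)^[d] v := by
  induction d generalizing v with
  | zero => rfl
  | succ d ih => simp only [Function.iterate_succ_apply, map_smul, ih]

theorem BN_pow_zero (A : V ≃L[ℝ] V) (d : ℕ) : (BN A)^[d] 0 = 0 := by
  have := BN_pow_smul A d 0 0
  rwa [zero_smul, zero_smul] at this

/-- the generalised eigenspace -/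
def VN (A : V ≃L[ℝ] V) (d : ℕ) : Submodule ℝ V where
  carrier := {v | (BN A)^[d] v = 0}
  add_mem' {v w} hv hw := by
    change (BN A)^[d] (v + w) = 0
    rw [BN_pow_add, show (BN A)^[d] v = 0 from hv, show (BN A)^[d] w = 0 from hw, add_zero]
  zero_mem' := BN_pow_zero A d
  smul_mem' c v hv := by
    change (BN A)^[d] (c • v) = 0
    rw [BN_pow_smul, show (BN A)^[d] v = 0 from hv, smul_zero]

theorem mem_VN {A : V ≃L[ℝ] V} {d : ℕ} {v : V} : v ∈ VN A d ↔ (BN A)^[d] v = 0 := Iff.rfl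

theorem BN_pow_TT (A : V ≃L[ℝ] V) (d N : ℕ) (v : V) :
    (BN A)^[d] (TT A N v) = TT A N ((BN A)^[d] v) := by
  have h : ∀ j v, (BN A)^[d] ((A ^ j) v) = (A ^ j) ((BN A)^[d] v) := by
    intro j
    induction j with
    | zero => intro v; rfl
    | succ j ih =>
      intro v
      rw [pow_succ']
      change (BN A)^[d] (A ((A ^ j) v)) = A ((A ^ j) ((BN A)^[d] v))
      rw [BN_pow_comm, ih]
  induction N with
  | zero => simp [TT_apply, BN_pow_zero]
  | succ N ih =>
    rw [TT_apply, TT_apply, Finset.sum_range_succ, Finset.sum_range_succ, BN_pow_add, ← TT_apply,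
      ← TT_apply, ih, h]

theorem TT_inj_VN {A : V ≃L[ℝ] V} {N : ℕ} (hN : 1 ≤ N) (d : ℕ) :
    ∀ v ∈ VN A d, TT A N v = 0 → v = 0 := by
  induction d with
  | zero => intro v hv _; exact hv
  | succ d ih =>
    intro v hv hT
    apply ih v _ hT
    rw [mem_VN]
    have h1 : BN A ((BN A)^[d] v) = 0 := by
      have h0 := mem_VN.1 hv
      rwa [Function.iterate_succ_apply'] at h0
    have h2 : A ((BN A)^[d] v) = (BN A)^[d] v := by
      rw [BN_apply] at h1
      exact sub_eq_zero.1 h1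
    have h3 := TT_fixed h2 N
    rw [← BN_pow_TT, hT, BN_pow_zero] at h3
    have h4 : (N : ℝ) ≠ 0 := by
      have : 0 < N := hN
      positivity
    exact (smul_eq_zero_iff_right h4).1 h3.symm

theorem exists_decomp (A : V ≃L[ℝ] V) : ∃ d : ℕ, ∀ t : V, ∃ u ∈ VN A d, ∃ y, t = u + (A y - y) := by
  obtain ⟨n, hn⟩ := ((BN A).toLinearMap.eventually_codisjoint_ker_pow_range_pow.and
    (eventually_ge_atTop 1)).exists
  refine ⟨n, fun t => ?_⟩
  have h1 : t ∈ LinearMap.ker ((BN A).toLinearMap ^ n) ⊔ LinearMap.range ((BN A).toLinearMap ^ n) := by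
    rw [codisjoint_iff.1 hn.1]
    trivial
  obtain ⟨u, hu, w, ⟨y, hy⟩, huw⟩ := Submodule.mem_sup.1 h1
  have h2 : ∀ v, ((BN A).toLinearMap ^ n) v = (BN A)^[n] v := by
    intro v
    rw [Module.End.pow_apply]
    rfl
  obtain ⟨m, rfl⟩ : ∃ m, n = m + 1 := ⟨n - 1, by omega⟩
  refine ⟨u, ?_, (BN A)^[m] y, ?_⟩
  · rw [LinearMap.mem_ker, h2] at hu
    exact hu
  · rw [← huw, ← hy, h2, Function.iterate_succ_apply', BN_apply]

theorem VN_inv {A : V ≃L[ℝ] V} {d : ℕ} : (∀ v ∈ VN A d, A v ∈ VN A d) ∧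
    ∀ v ∈ VN A d, A.symm v ∈ VN A d := by
  constructor
  · intro v hv
    rw [mem_VN, BN_pow_comm, mem_VN.1 hv, map_zero]
  · intro v hv
    rw [mem_VN, BN_pow_comm', mem_VN.1 hv, map_zero]

theorem BN_pow_eq (A : V ≃L[ℝ] V) (d : ℕ) (v : V) : ((BN A) ^ d) v = (BN A)^[d] v := by
  induction d generalizing v with
  | zero => rfl
  | succ d ih =>
    rw [pow_succ, Function.iterate_succ_apply, ← ih]
    rfl

theorem BN_iter_latt (b : Module.Basis κ ℝ V) {A : V ≃L[ℝ] V}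
    (hA : ∀ l ∈ Submodule.span ℤ (Set.range b), A l ∈ Submodule.span ℤ (Set.range b)) (d : ℕ) :
    ∀ l ∈ Submodule.span ℤ (Set.range b), (BN A)^[d] l ∈ Submodule.span ℤ (Set.range b) := by
  induction d with
  | zero => intro l hl; exact hl
  | succ d ih =>
    intro l hl
    rw [Function.iterate_succ_apply]
    exact ih _ (sub_mem (hA l hl) hl)

theorem VN_cocompact (b : Module.Basis κ ℝ V) {A : V ≃L[ℝ] V}
    (hA : ∀ i, A (b i) ∈ Submodule.span ℤ (Set.range b)) (d : ℕ) :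
    ∃ D : ℝ, 0 ≤ D ∧ ∀ c ∈ VN A d, ∃ l ∈ Submodule.span ℤ (Set.range b), l ∈ VN A d ∧ ‖c - l‖ ≤ D := by
  have h0 : ∀ l ∈ Submodule.span ℤ (Set.range b), A l ∈ Submodule.span ℤ (Set.range b) :=
    latt_map (B := (A : V →L[ℝ] V)) b hA
  have h2 : ∀ l ∈ Submodule.span ℤ (Set.range b), ((BN A) ^ d) l ∈
      Submodule.span ℤ (Set.range b) := by
    intro l hl
    rw [BN_pow_eq]
    exact BN_iter_latt b h0 d l hl
  obtain ⟨D, hD0, hD⟩ := ker_cocompact b h2
  refine ⟨D, hD0, fun c hc => ?_⟩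
  obtain ⟨l, hl, hl2, hl3⟩ := hD c (by rw [BN_pow_eq]; exact hc)
  rw [BN_pow_eq] at hl2
  exact ⟨l, hl, hl2, hl3⟩

end Pool.Agent.T6.H48.CZ.Mid
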