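import Mathlib

/-!
# Midpoint generating functions of symplectic maps near the identity

`V` is a finite-dimensional space, `ω` a symplectic form on `V`, `b` a basis of `V`, which spans a
lattice. A `C¹` symplectic map `f` near the identity which commutes with the translations by the
lattice satisfies `ω (f z - z - s) = σ' ((z + f z) / 2)` for a lattice periodic function `σ` with
derivative `σ'` and a vector `s`, the flux.
-/

set_option autoImplicit false

open Set Filter Topology

namespace Pool.Agent.T6.H48.CZ.Mid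

variable {V : Type*} [NormedAddCommGroup V] [NormedSpace ℝ V] [FiniteDimensional ℝ V]

/-- Symplectic forms. -/
structure IsSympForm (ω : V →L[ℝ] V →L[ℝ] ℝ) : Prop where
  alt : ∀ v, ω v v = 0
  nondeg : ∀ v, (∀ u, ω v u = 0) → v = 0

theorem IsSympForm.skew {ω : V →L[ℝ] V →L[ℝ] ℝ} (h : IsSympForm ω) (u v : V) :
    ω u v = -ω v u := by
  have h1 := h.alt (u + v)
  simp only [map_add, add_apply, h.alt, zero_add, add_zero] at h1
  linarith

theorem IsSympForm.surj {ω : V →L[ℝ] V →L[ℝ] ℝ} (h : IsSympForm ω) (l : V →L[ℝ] ℝ) :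
    ∃ s, ω s = l := by
  have h1 : Function.Injective (ω : V →ₗ[ℝ] (V →L[ℝ] ℝ)) := by
    rw [← LinearMap.ker_eq_bot, LinearMap.ker_eq_bot']
    intro v hv
    refine h.nondeg v fun u => ?_
    have h2 : ω v = 0 := hv
    rw [h2]
    rfl
  have h2 : Module.finrank ℝ V = Module.finrank ℝ (V →L[ℝ] ℝ) := by
    rw [← (LinearMap.toContinuousLinearMap (𝕜 := ℝ) (E := V) (F' := ℝ)).finrank_eq]
    exact (Subspace.dual_finrank_eq (K := ℝ) (V := V)).symm
  have : FiniteDimensional ℝ (V →L[ℝ] ℝ) :=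
    (LinearMap.toContinuousLinearMap (𝕜 := ℝ) (E := V) (F' := ℝ)).finiteDimensional
  exact (LinearMap.injective_iff_surjective_of_finrank_eq_finrank h2).1 h1 l

variable {κ : Type*} [Fintype κ]

theorem per_span {W V : Type*} [AddCommGroup V] [Module ℝ V]
    (b : Module.Basis κ ℝ V) {g : V → W} (hp : ∀ i z, g (z + b i) = g z) :
    ∀ l ∈ Submodule.span ℤ (Set.range b), ∀ z, g (z + l) = g z := by
  intro l hl
  induction hl using Submodule.span_induction with
  | mem x hx =>
    obtain ⟨i, rfl⟩ := hx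
    exact hp i
  | zero => intro z; rw [add_zero]
  | add x y _ _ hx hy => intro z; rw [← add_assoc, hy, hx]
  | smul a x _ hx =>
    induction a using Int.induction_on with
    | zero => intro z; rw [zero_smul, add_zero]
    | succ a ih => intro z; rw [add_smul, one_smul, ← add_assoc, hx, ih]
    | pred a ih =>
      intro z
      rw [sub_smul, one_smul, ← hx, add_assoc, sub_add_cancel, ih]

/-- a continuous function which is periodic is bounded -/
theorem bdd_of_per {W : Type*} [SeminormedAddCommGroup W]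
    (b : Module.Basis κ ℝ V) {g : V → W} (hg : Continuous g) (hp : ∀ i z, g (z + b i) = g z) :
    ∃ C, ∀ z, ‖g z‖ ≤ C := by
  have := FiniteDimensional.proper_real V
  obtain ⟨C, hC⟩ := (isCompact_closedBall (0 : V) (∑ i, ‖b i‖)).exists_bound_of_continuousOn
    hg.continuousOn
  refine ⟨C, fun z => ?_⟩
  have h2 : g z = g (ZSpan.fract b z) := by
    rw [← per_span b hp _ (ZSpan.floor b z).2 (ZSpan.fract b z), ZSpan.fract_apply, sub_add_cancel]
  rw [h2]
  exact hC _ (mem_closedBall_zero_iff.2 (ZSpan.norm_fract_le b z))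

/-- Data of a map with a periodic generating function. -/
structure GFd (ω : V →L[ℝ] V →L[ℝ] ℝ) (b : Module.Basis κ ℝ V) where
  /-- the map -/
  f : V → V
  /-- the flux -/
  s : V
  /-- the generating function -/
  σ : V → ℝ
  /-- its derivative -/
  σ' : V → V →L[ℝ] ℝ
  deriv : ∀ w, HasFDerivAt σ (σ' w) w
  bdd : ∃ C, ∀ w, ‖σ' w‖ ≤ C
  lip : ∃ K, ∀ w w', ‖σ' w - σ' w'‖ ≤ K * ‖w - w'‖
  per : ∀ i w, σ (w + b i) = σ w
  rel : ∀ m : V, ∃ z, z + f z = (2 : ℝ) • m ∧ σ' m = ω (f z - z - s)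

/-- The translation. -/
noncomputable def GFd.transl (ω : V →L[ℝ] V →L[ℝ] ℝ) (b : Module.Basis κ ℝ V) (s : V) :
    GFd ω b where
  f z := z + s
  s := s
  σ _ := 0
  σ' _ := 0
  deriv w := hasFDerivAt_const 0 w
  bdd := ⟨0, fun w => by simp⟩
  lip := ⟨0, fun w w' => by simp⟩
  per i w := rfl
  rel m := by
    refine ⟨m - (1 / 2 : ℝ) • s, ?_, ?_⟩
    · rw [two_smul, sub_add_eq_add_sub]
      have : (1 / 2 : ℝ) • s + (1 / 2 : ℝ) • s = s := by
        rw [← add_smul]; norm_num
      calc m + (m - (1 / 2 : ℝ) • s + s) - (1 / 2 : ℝ) • s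
          = m + m + s - ((1 / 2 : ℝ) • s + (1 / 2 : ℝ) • s) := by abel
        _ = m + m := by rw [this]; abel
    · have h : m - (1 / 2 : ℝ) • s + s - (m - (1 / 2 : ℝ) • s) - s = 0 := by abel
      rw [h, map_zero]

/-- Conjugation by a linear symplectic map which preserves the lattice. -/
noncomputable def GFd.conj {ω : V →L[ℝ] V →L[ℝ] ℝ} {b : Module.Basis κ ℝ V} (g : GFd ω b)
    (A : V ≃L[ℝ] V) (hA : ∀ u v, ω (A u) (A v) = ω u v)
    (hb : ∀ i, A (b i) ∈ Submodule.span ℤ (Set.range b)) : GFd ω b where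
  f z := A.symm (g.f (A z))
  s := A.symm g.s
  σ w := g.σ (A w)
  σ' w := (g.σ' (A w)).comp (A : V →L[ℝ] V)
  deriv w := (g.deriv (A w)).comp w (A : V →L[ℝ] V).hasFDerivAt
  bdd := by
    obtain ⟨C, hC⟩ := g.bdd
    refine ⟨C * ‖(A : V →L[ℝ] V)‖, fun w => ?_⟩
    refine (ContinuousLinearMap.opNorm_comp_le _ _).trans ?_
    gcongr
    exact hC _
  lip := by
    obtain ⟨K, hK⟩ := g.lip
    refine ⟨|K| * ‖(A : V →L[ℝ] V)‖ * ‖(A : V →L[ℝ] V)‖, fun w w' => ?_⟩
    rw [← ContinuousLinearMap.sub_comp]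
    refine (ContinuousLinearMap.opNorm_comp_le _ _).trans ?_
    have h1 : ‖g.σ' (A w) - g.σ' (A w')‖ ≤ |K| * (‖(A : V →L[ℝ] V)‖ * ‖w - w'‖) := by
      refine (hK _ _).trans ?_
      gcongr
      · exact le_abs_self _
      · have := (A : V →L[ℝ] V).le_opNorm (w - w')
        rwa [ContinuousLinearEquiv.coe_coe, map_sub] at this
    calc _ ≤ |K| * (‖(A : V →L[ℝ] V)‖ * ‖w - w'‖) * ‖(A : V →L[ℝ] V)‖ := by gcongr
      _ = _ := by ring
  per i w := by
    rw [map_add]
    exact per_span b g.per _ (hb i) _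
  rel m := by
    obtain ⟨z, hz1, hz2⟩ := g.rel (A m)
    refine ⟨A.symm z, ?_, ?_⟩
    · rw [A.apply_symm_apply, ← map_add, hz1, map_smul, A.symm_apply_apply]
    · rw [A.apply_symm_apply, hz2]
      ext u
      rw [ContinuousLinearMap.comp_apply, ContinuousLinearEquiv.coe_coe,
        ← hA (A.symm (g.f z) - A.symm z - A.symm g.s) u]
      simp only [map_sub, A.apply_symm_apply]

theorem exists_equiv_of_near {M : V →L[ℝ] V} (hM : ‖M - ContinuousLinearMap.id ℝ V‖ ≤ 1 / 4) :
    ∃ N : V ≃L[ℝ] V, (N : V →L[ℝ] V) = M := by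
  have hinj : Function.Injective M.toLinearMap := by
    rw [← LinearMap.ker_eq_bot, LinearMap.ker_eq_bot']
    intro v hv
    have hv' : M v = 0 := hv
    have h1 := (M - ContinuousLinearMap.id ℝ V).le_opNorm v
    rw [sub_apply, hv', ContinuousLinearMap.id_apply, zero_sub, norm_neg] at h1
    have h2 : ‖v‖ ≤ 1 / 4 * ‖v‖ := h1.trans (by gcongr)
    have h3 : ‖v‖ = 0 := by
      have := norm_nonneg v
      linarith
    exact norm_eq_zero.1 h3
  refine ⟨(LinearEquiv.ofInjectiveEndo M.toLinearMap hinj).toContinuousLinearEquiv, ?_⟩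
  ext v
  rfl

/-- **Generating functions**. A `C¹` symplectic map near the identity which commutes with the
translations by `b i` has a periodic generating function. -/
theorem exists_GFd {ω : V →L[ℝ] V →L[ℝ] ℝ} (hω : IsSympForm ω) (b : Module.Basis κ ℝ V)
    {f : V → V} {f' : V → V →L[ℝ] V}
    (hf : ∀ z, HasFDerivAt f (f' z) z)
    (hn : ∀ z, ‖f' z - ContinuousLinearMap.id ℝ V‖ ≤ 1 / 4)
    (hs : ∀ z u v, ω (f' z u) (f' z v) = ω u v)
    (hp : ∀ i z, f (z + b i) = f z + b i) : ∃ g : GFd ω b, g.f = f := by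
  have hfc : Continuous f := continuous_iff_continuousAt.2 fun z => (hf z).continuousAt
  -- `D = f - id`
  set D : V → V := fun z => f z - z with hD
  have hDc : Continuous D := hfc.sub continuous_id
  have hDd : ∀ z, HasFDerivAt D (f' z - ContinuousLinearMap.id ℝ V) z := fun z =>
    (hf z).sub (hasFDerivAt_id z)
  have hDp : ∀ i z, D (z + b i) = D z := by
    intro i z
    simp only [hD, hp]
    abel
  obtain ⟨C0, hC0⟩ := bdd_of_per b hDc hDp
  have hDl : ∀ z w, ‖D z - D w‖ ≤ 1 / 4 * ‖z - w‖ := fun z w =>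
    convex_univ.norm_image_sub_le_of_norm_hasFDerivWithin_le
      (fun x _ => (hDd x).hasFDerivWithinAt) (fun x _ => hn x) (mem_univ w) (mem_univ z)
  -- the map `G`
  set G : V → V := fun z => z + (1 / 2 : ℝ) • D z with hG
  set G' : V → V →L[ℝ] V := fun z =>
    ContinuousLinearMap.id ℝ V + (1 / 2 : ℝ) • (f' z - ContinuousLinearMap.id ℝ V) with hG'
  have hGd : ∀ z, HasFDerivAt G (G' z) z := fun z =>
    (hasFDerivAt_id z).add ((hDd z).const_smul (1 / 2 : ℝ))
  have hGn : ∀ z, ‖G' z - ContinuousLinearMap.id ℝ V‖ ≤ 1 / 4 := by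
    intro z
    rw [hG']
    simp only [add_sub_cancel_left]
    rw [norm_smul]
    have h1 := hn z
    have h2 : ‖(1 / 2 : ℝ)‖ = 1 / 2 := by norm_num
    rw [h2]
    linarith [norm_nonneg (f' z - ContinuousLinearMap.id ℝ V)]
  have hGe : ∀ z, z + f z = (2 : ℝ) • G z := by
    intro z
    change z + f z = (2 : ℝ) • (z + (1 / 2 : ℝ) • (f z - z))
    rw [smul_add, smul_smul]
    norm_num
    rw [two_smul]
    abel
  have hGp : ∀ i z, G (z + b i) = G z + b i := by
    intro i z
    rw [hG]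
    simp only [hDp]
    abel
  have hGl : ∀ z w, ‖G z - G w - (z - w)‖ ≤ 1 / 4 * ‖z - w‖ := by
    intro z w
    have e : G z - G w - (z - w) = (1 / 2 : ℝ) • (D z - D w) := by
      rw [smul_sub]
      change z + (1 / 2 : ℝ) • D z - (w + (1 / 2 : ℝ) • D w) - (z - w) = _
      abel
    rw [e, norm_smul]
    have h2 : ‖(1 / 2 : ℝ)‖ = 1 / 2 := by norm_num
    rw [h2]
    have := hDl z w
    linarith [norm_nonneg (D z - D w)]
  obtain ⟨K, hK1, hK2⟩ : ∃ K : V → V, Continuous K ∧ ∀ w, G (K w) = w := by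
    rcases subsingleton_or_nontrivial V with hE | hE
    · exact ⟨id, continuous_id, fun w => Subsingleton.elim _ _⟩
    · have : CompleteSpace V := FiniteDimensional.complete ℝ V
      have hA : ApproximatesLinearOn G ((ContinuousLinearEquiv.refl ℝ V : V ≃L[ℝ] V) :
          V →L[ℝ] V) univ (1 / 4 : NNReal) := by
        intro z _ w _
        refine (hGl z w).trans_eq ?_
        norm_num
      let e := hA.toHomeomorph G (Or.inr (by
        have h1 : ‖(((ContinuousLinearEquiv.refl ℝ V).symm : V ≃L[ℝ] V) :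
          V →L[ℝ] V)‖₊ = 1 := by
          have := ContinuousLinearMap.norm_id (𝕜 := ℝ) (E := V)
          exact NNReal.eq this
        rw [h1, inv_one]
        rw [← NNReal.coe_lt_coe]
        norm_num))
      exact ⟨e.symm, e.symm.continuous, fun w => e.apply_symm_apply w⟩
  have hGinj : Function.Injective G := by
    intro z w h
    have h1 := hGl z w
    rw [h, sub_self, zero_sub, norm_neg] at h1
    have h3 : ‖z - w‖ = 0 := by
      have := norm_nonneg (z - w)
      linarith
    exact sub_eq_zero.1 (norm_eq_zero.1 h3)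
  have hKp : ∀ i w, K (w + b i) = K w + b i := by
    intro i w
    apply hGinj
    rw [hK2, hGp, hK2]
  have hKl : ∀ w w', ‖K w - K w'‖ ≤ 2 * ‖w - w'‖ := by
    intro w w'
    have h1 := hGl (K w) (K w')
    rw [hK2, hK2] at h1
    have h2 : ‖K w - K w'‖ ≤ ‖w - w'‖ + ‖w - w' - (K w - K w')‖ := by
      have e : K w - K w' = (w - w') - (w - w' - (K w - K w')) := by abel
      calc ‖K w - K w'‖ = ‖(w - w') - (w - w' - (K w - K w'))‖ := by rw [← e]
        _ ≤ _ := norm_sub_le _ _
    linarith [norm_nonneg (w - w')]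
  have hKd : ∀ w, ∃ N : V →L[ℝ] V, HasFDerivAt K N w ∧ ∀ u, G' (K w) (N u) = u := by
    intro w
    obtain ⟨N, hN⟩ := exists_equiv_of_near (hGn (K w))
    refine ⟨N.symm, ?_, fun u => ?_⟩
    · refine HasFDerivAt.of_local_left_inverse hK1.continuousAt ?_ (Eventually.of_forall hK2)
      rw [hN]
      exact hGd _
    · rw [← hN]
      exact N.apply_symm_apply u
  choose K' hK'd hK' using hKd
  -- the form
  set α : V → (V →L[ℝ] ℝ) := fun w => ω (D (K w)) with hα
  have hαd : ∀ w, HasFDerivAt α (ω.comp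
      ((f' (K w) - ContinuousLinearMap.id ℝ V).comp (K' w))) w := fun w =>
    ω.hasFDerivAt.comp w ((hDd (K w)).comp w (hK'd w))
  have hsym : ∀ w u v, (ω.comp
      ((f' (K w) - ContinuousLinearMap.id ℝ V).comp (K' w))) u v = (ω.comp
      ((f' (K w) - ContinuousLinearMap.id ℝ V).comp (K' w))) v u := by
    intro w u v
    have hu := hK' w u
    have hv := hK' w v
    simp only [ContinuousLinearMap.comp_apply]
    set a := K' w u with ha
    set a' := K' w v with ha'
    have hG1 : ∀ c, G' (K w) c = (1 / 2 : ℝ) • (c + f' (K w) c) := by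
      intro c
      have e : G' (K w) c = c + (1 / 2 : ℝ) • (f' (K w) c - c) := rfl
      rw [e, smul_sub, smul_add]
      have e2 : c = (1 / 2 : ℝ) • c + (1 / 2 : ℝ) • c := by
        rw [← add_smul]; norm_num
      calc c + ((1 / 2 : ℝ) • f' (K w) c - (1 / 2 : ℝ) • c)
          = ((1 / 2 : ℝ) • c + (1 / 2 : ℝ) • c) +
            ((1 / 2 : ℝ) • f' (K w) c - (1 / 2 : ℝ) • c) := by rw [← e2]
        _ = _ := by abel
    rw [hG1] at hu hv
    rw [← hu, ← hv]
    have h3 := hs (K w) a a'
    simp only [ContinuousLinearMap.id_apply, map_sub, map_smul, map_add,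
      sub_apply, smul_eq_mul]
    rw [h3, hs (K w) a' a, hω.skew a' a, hω.skew (f' (K w) a') a, hω.skew a' (f' (K w) a)]
    ring
  obtain ⟨S, hS⟩ := (convex_univ (𝕜 := ℝ) (E := V)).exists_forall_hasFDerivWithinAt_of_hasFDerivWithinAt_symmetric
    (fun w _ => (hαd w).hasFDerivWithinAt) (fun w _ u _ v _ => hsym w u v)
  have hSd : ∀ w, HasFDerivAt S (α w) w := fun w => (hasFDerivWithinAt_univ).1 (hS w (mem_univ w))
  have hαp : ∀ i w, α (w + b i) = α w := by
    intro i w
    rw [hα]
    simp only [hKp, hDp]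
  -- periods of `S`
  have hper : ∀ i, ∃ c : ℝ, ∀ w, S (w + b i) = S w + c := by
    intro i
    refine ⟨S (0 + b i) - S 0, fun w => ?_⟩
    have h1 : ∀ w, HasFDerivAt (fun w => S (w + b i) - S w) (0 : V →L[ℝ] ℝ) w := by
      intro w
      have h2 : HasFDerivAt (fun w => S (w + b i)) (α (w + b i)) w :=
        (hasFDerivAt_comp_add_right (b i)).2 (hSd (w + b i))
      have h3 := h2.sub (hSd w)
      rw [hαp, sub_self] at h3
      exact h3
    have h2 := is_const_of_fderiv_eq_zero (𝕜 := ℝ) (fun w => (h1 w).differentiableAt)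
      (fun w => (h1 w).fderiv) w 0
    linarith
  choose c hc using hper
  obtain ⟨p, hpp⟩ := hω.surj (LinearMap.toContinuousLinearMap (b.constr ℝ c))
  refine ⟨{
    f := f
    s := p
    σ := fun w => S w - ω p w
    σ' := fun w => α w - ω p
    deriv := fun w => (hSd w).sub (ω p).hasFDerivAt
    bdd := ?_
    lip := ?_
    per := ?_
    rel := ?_ }, rfl⟩
  · refine ⟨‖ω‖ * C0 + ‖ω p‖, fun w => ?_⟩
    refine (norm_sub_le _ _).trans ?_
    gcongr
    refine (ω.le_opNorm _).trans ?_
    gcongr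
    exact hC0 _
  · refine ⟨‖ω‖ * (1 / 4 * 2), fun w w' => ?_⟩
    rw [sub_sub_sub_cancel_right, hα]
    simp only [← map_sub]
    refine (ω.le_opNorm _).trans ?_
    rw [mul_assoc, mul_assoc]
    gcongr
    refine (hDl _ _).trans ?_
    gcongr
    exact hKl w w'
  · intro i w
    have h1 : ω p (b i) = c i := by
      rw [hpp, LinearMap.coe_toContinuousLinearMap', b.constr_basis]
    rw [hc, map_add, h1]
    ring
  · intro m
    refine ⟨K m, ?_, ?_⟩
    · rw [hGe, hK2]
    · rw [hα]
      simp only [← map_sub]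
      rfl

end Pool.Agent.T6.H48.CZ.Mid
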