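import Pool.Agent.T6.H48.CZ.Saddle
import Pool.Agent.T6.H48.CZ.Mid

/-!
# Twisted fixed points: a Conley-Zehnder type theorem

Let `F` be a composition of symplectic maps near the identity with periodic generating functions and
let `C` be a linear symplectic map. Then `F z = C (z - a) + a + t` has a solution for every `a`,
where `t` is the total flux of `F`.
-/

set_option autoImplicit false

open Set Filter Topology
open scoped RealInnerProductSpace

namespace Pool.Agent.T6.H48.CZ.Mid

variable {V : Type*} [NormedAddCommGroup V] [NormedSpace ℝ V] [FiniteDimensional ℝ V]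
variable {κ : Type*} [Fintype κ]

/-- the space of discrete loops -/
abbrev HL (M : ℕ) (κ : Type*) [Fintype κ] : Type _ := EuclideanSpace ℝ (Fin (M + 1) × κ)

variable {M : ℕ}

/-- the `i`-th point of the loop, as a linear map -/
noncomputable def col (b : Module.Basis κ ℝ V) (i : Fin (M + 1)) : HL M κ →ₗ[ℝ] V where
  toFun z := ∑ k, z (i, k) • b k
  map_add' z w := by
    simp [add_smul, Finset.sum_add_distrib]
  map_smul' c z := by
    simp [mul_smul, Finset.smul_sum]

/-- the `i`-th point of the loop -/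
noncomputable def co (b : Module.Basis κ ℝ V) (i : Fin (M + 1)) : HL M κ →L[ℝ] V :=
  LinearMap.toContinuousLinearMap (col b i)

theorem co_apply (b : Module.Basis κ ℝ V) (i : Fin (M + 1)) (z : HL M κ) :
    co b i z = ∑ k, z (i, k) • b k := rfl

/-- the point after the `i`-th point -/
noncomputable def nx (b : Module.Basis κ ℝ V) (C : V →L[ℝ] V) (i : Fin (M + 1)) : HL M κ →L[ℝ] V :=
  if h : (i : ℕ) < M then co b ⟨i + 1, by omega⟩ else C.comp (co b 0)

theorem nx_castSucc (b : Module.Basis κ ℝ V) (C : V →L[ℝ] V) (i : Fin M) :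
    (nx b C i.castSucc : HL M κ →L[ℝ] V) = co b i.succ := by
  rw [nx, dif_pos (by simp)]
  rfl

theorem nx_last (b : Module.Basis κ ℝ V) (C : V →L[ℝ] V) :
    (nx b C (Fin.last M) : HL M κ →L[ℝ] V) = C.comp (co b 0) := by
  rw [nx, dif_neg (by simp)]

/-- midpoints -/
noncomputable def md (b : Module.Basis κ ℝ V) (C : V →L[ℝ] V) (i : Fin (M + 1)) : HL M κ →L[ℝ] V :=
  (1 / 2 : ℝ) • (co b i + nx b C i)

theorem md_apply (b : Module.Basis κ ℝ V) (C : V →L[ℝ] V) (i : Fin (M + 1)) (z : HL M κ) :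
    md b C i z = (1 / 2 : ℝ) • (co b i z + nx b C i z) := rfl

/-- the bilinear form -/
noncomputable def BB (ω : V →L[ℝ] V →L[ℝ] ℝ) (b : Module.Basis κ ℝ V) (C : V →L[ℝ] V) :
    HL M κ →ₗ[ℝ] (HL M κ →L[ℝ] ℝ) where
  toFun z := ∑ i, (ω (nx b C i z - co b i z)).comp (md b C i)
  map_add' z w := by
    ext v
    simp only [map_add, map_sub, sum_apply, ContinuousLinearMap.comp_apply, add_apply, sub_apply,
      ← Finset.sum_add_distrib]
    refine Finset.sum_congr rfl fun i _ => ?_
    ring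
  map_smul' c z := by
    ext v
    simp only [map_smul, map_sub, sum_apply, ContinuousLinearMap.comp_apply, smul_apply, sub_apply,
      smul_eq_mul, Finset.mul_sum, RingHom.id_apply]
    refine Finset.sum_congr rfl fun i _ => ?_
    ring

theorem BB_apply (ω : V →L[ℝ] V →L[ℝ] ℝ) (b : Module.Basis κ ℝ V) (C : V →L[ℝ] V)
    (z v : HL M κ) : BB ω b C z v = ∑ i, ω (nx b C i z - co b i z) (md b C i v) := by
  simp [BB]

/-- the quadratic form -/
noncomputable def AB (ω : V →L[ℝ] V →L[ℝ] ℝ) (b : Module.Basis κ ℝ V) (C : V →L[ℝ] V) :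
    HL M κ →ₗ[ℝ] HL M κ where
  toFun z := (InnerProductSpace.toDual ℝ (HL M κ)).symm (BB ω b C z)
  map_add' z w := by
    rw [map_add, map_add]
  map_smul' c z := by
    rw [map_smul, LinearIsometryEquiv.map_smulₛₗ]
    simp

theorem inner_AB (ω : V →L[ℝ] V →L[ℝ] ℝ) (b : Module.Basis κ ℝ V) (C : V →L[ℝ] V)
    (z v : HL M κ) : ⟪AB ω b C z, v⟫ = ∑ i, ω (nx b C i z - co b i z) (md b C i v) := by
  rw [← BB_apply]
  exact InnerProductSpace.toDual_symm_apply

theorem AB_symm {ω : V →L[ℝ] V →L[ℝ] ℝ} (hω : IsSympForm ω) (b : Module.Basis κ ℝ V)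
    {C : V →L[ℝ] V} (hC : ∀ u v, ω (C u) (C v) = ω u v) :
    (AB ω b C : HL M κ →ₗ[ℝ] HL M κ).IsSymmetric := by
  intro z v
  rw [← sub_eq_zero, ← real_inner_comm z, inner_AB, inner_AB, ← Finset.sum_sub_distrib]
  have h : ∀ i : Fin (M + 1), ω (nx b C i z - co b i z) (md b C i v) -
      ω (nx b C i v - co b i v) (md b C i z) =
      ω (nx b C i z) (nx b C i v) - ω (co b i z) (co b i v) := by
    intro i
    rw [md_apply, md_apply]
    simp only [map_sub, map_smul, map_add, sub_apply, smul_eq_mul]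
    rw [hω.skew (nx b C i v) (co b i z), hω.skew (nx b C i v) (nx b C i z),
      hω.skew (co b i v) (co b i z), hω.skew (co b i v) (nx b C i z)]
    ring
  simp only [h]
  rw [Finset.sum_sub_distrib, Fin.sum_univ_castSucc, Fin.sum_univ_succ]
  simp only [nx_castSucc, nx_last, ContinuousLinearMap.comp_apply, hC]
  ring

theorem co_ext {b : Module.Basis κ ℝ V} {z w : HL M κ} (h : ∀ i, co b i z = co b i w) : z = w := by
  have h1 : ∀ i k, z (i, k) - w (i, k) = 0 := by
    intro i
    have h2 := h i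
    rw [co_apply, co_apply, ← sub_eq_zero, ← Finset.sum_sub_distrib] at h2
    simp only [← sub_smul] at h2
    exact Fintype.linearIndependent_iff.1 b.linearIndependent _ h2
  ext ⟨i, k⟩
  exact sub_eq_zero.1 (h1 i k)

theorem md_inj {b : Module.Basis κ ℝ V} {C : V →L[ℝ] V} (hM : Even M)
    (hC1 : ∀ x, C x = -x → x = 0) {v : HL M κ} (hv : ∀ i, md b C i v = 0) : v = 0 := by
  have h1 : ∀ i, nx b C i v = -co b i v := by
    intro i
    have h2 := hv i
    rw [md_apply, smul_eq_zero_iff_right (by norm_num)] at h2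
    rw [eq_neg_iff_add_eq_zero, add_comm]
    exact h2
  have h2 : ∀ i : Fin (M + 1), co b i v = (-1 : ℝ) ^ (i : ℕ) • co b 0 v := by
    intro i
    induction i using Fin.induction with
    | zero => simp
    | succ i ih =>
      have h3 := h1 i.castSucc
      rw [nx_castSucc, ih] at h3
      rw [h3, Fin.val_succ, Fin.val_castSucc, pow_succ, mul_smul, ← smul_neg]
      simp
  have h3 : co b 0 v = 0 := by
    apply hC1
    have h4 := h1 (Fin.last M)
    rw [nx_last, h2 (Fin.last M), Fin.val_last, hM.neg_one_pow, one_smul] at h4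
    exact h4
  apply co_ext (b := b)
  intro i
  rw [h2 i, h3, smul_zero, map_zero]

theorem md_surj {b : Module.Basis κ ℝ V} {C : V →L[ℝ] V} (hM : Even M)
    (hC1 : ∀ x, C x = -x → x = 0) (y : Fin (M + 1) → V) :
    ∃ v : HL M κ, ∀ i, md b C i v = y i := by
  let T : HL M κ →ₗ[ℝ] (Fin (M + 1) → V) := LinearMap.pi fun i => (md b C i : HL M κ →ₗ[ℝ] V)
  have hT : Function.Injective T := by
    rw [← LinearMap.ker_eq_bot, LinearMap.ker_eq_bot']
    intro v hv
    exact md_inj hM hC1 fun i => congrFun hv i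
  have hd : Module.finrank ℝ (HL M κ) = Module.finrank ℝ (Fin (M + 1) → V) := by
    rw [finrank_euclideanSpace, Fintype.card_prod, Fintype.card_fin, Module.finrank_pi_fintype]
    simp [Module.finrank_eq_card_basis b]
  obtain ⟨v, hv⟩ := (LinearMap.injective_iff_surjective_of_finrank_eq_finrank hd).1 hT y
  exact ⟨v, fun i => congrFun hv i⟩

/-- constants, as a linear map -/
noncomputable def csl (M : ℕ) (b : Module.Basis κ ℝ V) : V →ₗ[ℝ] HL M κ where
  toFun c := WithLp.toLp 2 fun q => b.repr c q.2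
  map_add' z w := by
    ext ⟨i, j⟩
    simp
  map_smul' c z := by
    ext ⟨i, j⟩
    simp

/-- constants -/
noncomputable def cs (M : ℕ) (b : Module.Basis κ ℝ V) : V →L[ℝ] HL M κ :=
  LinearMap.toContinuousLinearMap (csl M b)

theorem co_cs (b : Module.Basis κ ℝ V) (i : Fin (M + 1)) (c : V) : co b i (cs M b c) = c := by
  rw [co_apply]
  exact b.sum_repr c

theorem nx_cs {b : Module.Basis κ ℝ V} {C : V →L[ℝ] V} {c : V} (hc : C c = c)
    (i : Fin (M + 1)) : nx b C i (cs M b c) = c := by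
  rw [nx]
  split_ifs with h
  · exact co_cs b _ c
  · rw [ContinuousLinearMap.comp_apply, co_cs, hc]

theorem md_cs {b : Module.Basis κ ℝ V} {C : V →L[ℝ] V} {c : V} (hc : C c = c)
    (i : Fin (M + 1)) : md b C i (cs M b c) = c := by
  rw [md_apply, co_cs, nx_cs hc, ← two_smul ℝ c, smul_smul]
  norm_num

theorem ker_AB {ω : V →L[ℝ] V →L[ℝ] ℝ} (hω : IsSympForm ω) {b : Module.Basis κ ℝ V}
    {C : V →L[ℝ] V} (hM : Even M) (hC1 : ∀ x, C x = -x → x = 0) {z : HL M κ}
    (hz : AB ω b C z = 0) : C (co b 0 z) = co b 0 z ∧ z = cs M b (co b 0 z) := by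
  have h1 : ∀ i, nx b C i z = co b i z := by
    intro i
    rw [← sub_eq_zero]
    refine hω.nondeg _ fun u => ?_
    obtain ⟨v, hv⟩ := md_surj (b := b) (C := C) hM hC1 (Pi.single i u)
    have h2 := inner_AB ω b C z v
    rw [hz, inner_zero_left, Finset.sum_eq_single i] at h2
    · rw [h2, hv, Pi.single_eq_same]
    · intro j _ hj
      rw [hv, Pi.single_eq_of_ne hj, map_zero]
    · intro h
      exact absurd (Finset.mem_univ i) h
  have h2 : ∀ i : Fin (M + 1), co b i z = co b 0 z := by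
    intro i
    induction i using Fin.induction with
    | zero => rfl
    | succ i ih =>
      have h3 := h1 i.castSucc
      rw [nx_castSucc] at h3
      rw [h3, ih]
  refine ⟨?_, co_ext (b := b) fun i => ?_⟩
  · have h3 := h1 (Fin.last M)
    rw [nx_last, h2 (Fin.last M)] at h3
    exact h3
  · rw [h2, co_cs]

/-- `C`-invariant vectors of the lattice are cocompact in the `C`-invariant vectors -/
def CoKer (b : Module.Basis κ ℝ V) (C : V →L[ℝ] V) : Prop :=
  ∃ D : ℝ, ∀ c, C c = c → ∃ l ∈ Submodule.span ℤ (Set.range b), C l = l ∧ ‖c + l‖ ≤ D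

theorem exists_loop {ω : V →L[ℝ] V →L[ℝ] ℝ} (hω : IsSympForm ω) {b : Module.Basis κ ℝ V}
    {C : V →L[ℝ] V} (hC : ∀ u v, ω (C u) (C v) = ω u v) (hM : Even M)
    (hC1 : ∀ x, C x = -x → x = 0) (hC2 : CoKer b C)
    (g : ℕ → GFd ω b) (a : ℕ → V) (ha : ∀ i, a (i + 1) = a i + (g i).s) :
    ∃ z : HL M κ, ∀ i : Fin (M + 1),
      (g i).f (co b i z + a i) = nx b C i z + a (i + 1 : ℕ) := by
  -- the shifts in mixed coordinates
  set e : Fin (M + 1) → V := fun i => (1 / 2 : ℝ) • (a i + a (i + 1 : ℕ)) with he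
  choose K₀ hK₀ using fun i => (g i).bdd
  choose K hK using fun i => (g i).lip
  obtain ⟨D, hD⟩ := hC2
  obtain ⟨z, hz⟩ := exists_crit (AB_symm (M := M) hω b hC)
    (fun z => -∑ i : Fin (M + 1), (g i).σ (md b C i z + e i))
    (fun z => -∑ i : Fin (M + 1), ((g i).σ' (md b C i z + e i)).comp (md b C i))
    (by
      intro z
      refine HasFDerivAt.neg (HasFDerivAt.fun_sum fun i _ => ?_)
      have h1 : HasFDerivAt (fun z : HL M κ => md b C i z + e i) (md b C i) z :=
        (md b C i).hasFDerivAt.add_const (e i)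
      exact ((g i).deriv (md b C i z + e i)).comp z h1)
    (∑ i : Fin (M + 1), K₀ i * ‖(md b C i : HL M κ →L[ℝ] V)‖)
    (∑ i : Fin (M + 1), |K i| * ‖(md b C i : HL M κ →L[ℝ] V)‖ * ‖(md b C i : HL M κ →L[ℝ] V)‖)
    (‖cs M b‖ * D)
    (by
      intro z
      rw [norm_neg]
      refine norm_sum_le_of_le _ fun i _ => ?_
      refine (ContinuousLinearMap.opNorm_comp_le _ _).trans ?_
      gcongr
      exact hK₀ _ _)
    (by
      intro z w
      rw [← neg_sub', neg_sub, norm_sub_rev, ← Finset.sum_sub_distrib, Finset.sum_mul]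
      refine norm_sum_le_of_le _ fun i _ => ?_
      rw [← ContinuousLinearMap.sub_comp]
      refine (ContinuousLinearMap.opNorm_comp_le _ _).trans ?_
      have h1 : ‖(g i).σ' (md b C i z + e i) - (g i).σ' (md b C i w + e i)‖ ≤
          |K i| * (‖(md b C i : HL M κ →L[ℝ] V)‖ * ‖z - w‖) := by
        refine (hK _ _ _).trans ?_
        rw [add_sub_add_right_eq_sub, ← map_sub]
        gcongr
        · exact le_abs_self _
        · exact ContinuousLinearMap.le_opNorm _ _
      calc _ ≤ (|K i| * (‖(md b C i : HL M κ →L[ℝ] V)‖ * ‖z - w‖)) *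
            ‖(md b C i : HL M κ →L[ℝ] V)‖ := by gcongr
        _ = _ := by ring)
    {w | ∃ l ∈ Submodule.span ℤ (Set.range b), C l = l ∧ w = cs M b l}
    (by
      rintro _ ⟨l, hl, hCl, rfl⟩
      constructor
      · have h1 : ∀ v, ⟪AB ω b C (cs M b l), v⟫ = 0 := by
          intro v
          rw [inner_AB]
          refine Finset.sum_eq_zero fun i _ => ?_
          rw [nx_cs hCl, co_cs, sub_self, map_zero]
          rfl
        exact inner_self_eq_zero.1 (h1 _)
      · intro z
        congr 1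
        refine Finset.sum_congr rfl fun i _ => ?_
        have h1 : md b C i (z + cs M b l) + e i = (md b C i z + e i) + l := by
          rw [map_add, md_cs hCl]
          abel
        rw [h1]
        exact per_span b (g i).per l hl _)
    (by
      intro z hz
      obtain ⟨h1, h2⟩ := ker_AB hω hM hC1 hz
      obtain ⟨l, hl, hCl, hlD⟩ := hD _ h1
      refine ⟨cs M b l, ⟨l, hl, hCl, rfl⟩, ?_⟩
      rw [h2, ← map_add]
      refine ((cs M b).le_opNorm _).trans ?_
      gcongr)
  -- the critical point is a loop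
  have hcrit : ∀ i : Fin (M + 1), ω (nx b C i z - co b i z) = (g i).σ' (md b C i z + e i) := by
    intro i
    refine ContinuousLinearMap.ext fun u => ?_
    obtain ⟨v, hv⟩ := md_surj (b := b) (C := C) hM hC1 (Pi.single i u)
    have h1 := hz v
    rw [inner_AB, neg_apply, sum_apply] at h1
    simp only [ContinuousLinearMap.comp_apply, hv] at h1
    rw [← sub_eq_add_neg, ← Finset.sum_sub_distrib, Finset.sum_eq_single i] at h1
    · rw [Pi.single_eq_same] at h1
      exact sub_eq_zero.1 h1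
    · intro k _ hk
      rw [Pi.single_eq_of_ne hk, map_zero, map_zero, sub_zero]
    · intro h
      exact absurd (Finset.mem_univ i) h
  refine ⟨z, fun i => ?_⟩
  obtain ⟨w, hw1, hw2⟩ := (g i).rel (md b C i z + e i)
  rw [← hcrit] at hw2
  have hw3 : nx b C i z - co b i z = (g i).f w - w - (g i).s := by
    rw [← sub_eq_zero]
    refine hω.nondeg _ fun u => ?_
    rw [map_sub, hw2, sub_self]
    rfl
  have hw4 : w + (g i).f w = co b i z + nx b C i z + (a i + a (i + 1 : ℕ)) := by
    rw [hw1, md_apply, he]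
    simp only [smul_add, smul_smul]
    norm_num
  rw [ha] at hw4 ⊢
  -- solve the linear system
  have hw5 : (2 : ℝ) • w = (2 : ℝ) • (co b i z + a i) := by
    have h1 : (2 : ℝ) • w = (w + (g i).f w) - ((g i).f w - w - (g i).s) - (g i).s := by
      rw [two_smul]; abel
    rw [h1, ← hw3, hw4, two_smul]
    abel
  have hw6 : w = co b i z + a i := by
    have h1 : (2 : ℝ) ≠ 0 := two_ne_zero
    exact smul_right_injective V h1 hw5
  rw [← hw6]
  have h1 : (g i).f w = ((g i).f w - w - (g i).s) + w + (g i).s := by abel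
  rw [h1, ← hw3, hw6]
  abel

/-- composition of a sequence of maps -/
def cmp {ω : V →L[ℝ] V →L[ℝ] ℝ} {b : Module.Basis κ ℝ V} (g : ℕ → GFd ω b) : ℕ → V → V
  | 0 => id
  | k + 1 => (g k).f ∘ cmp g k

theorem cmp_congr {ω : V →L[ℝ] V →L[ℝ] ℝ} {b : Module.Basis κ ℝ V} {g g' : ℕ → GFd ω b} {N : ℕ}
    (h : ∀ k < N, g k = g' k) : cmp g N = cmp g' N := by
  induction N with
  | zero => rfl
  | succ N ih => rw [cmp, cmp, ih fun k hk => h k (by omega), h N (by omega)]

theorem cmp_point_odd {ω : V →L[ℝ] V →L[ℝ] ℝ} (hω : IsSympForm ω) {b : Module.Basis κ ℝ V}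
    {C : V →L[ℝ] V} (hC : ∀ u v, ω (C u) (C v) = ω u v)
    (hC1 : ∀ x, C x = -x → x = 0) (hC2 : CoKer b C)
    (g : ℕ → GFd ω b) (a : V) {M : ℕ} (hM : Even M) :
    ∃ z, cmp g (M + 1) z = C (z - a) + a + ∑ i ∈ Finset.range (M + 1), (g i).s := by
  obtain ⟨ζ, hζ⟩ := exists_loop hω hC hM hC1 hC2 g
    (fun k => a + ∑ i ∈ Finset.range k, (g i).s)
    (fun i => by rw [Finset.sum_range_succ]; abel)
  have h : ∀ k : Fin (M + 1), cmp g k (co b 0 ζ + a) =
      co b k ζ + (a + ∑ i ∈ Finset.range k, (g i).s) := by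
    intro k
    induction k using Fin.induction with
    | zero => simp [cmp]
    | succ k ih =>
      have h1 := hζ k.castSucc
      rw [nx_castSucc] at h1
      rw [Fin.val_succ, cmp, Function.comp_apply]
      rw [Fin.val_castSucc] at h1 ih
      rw [ih, h1]
  refine ⟨co b 0 ζ + a, ?_⟩
  have h1 := hζ (Fin.last M)
  have h2 := h (Fin.last M)
  rw [nx_last] at h1
  rw [Fin.val_last] at h1 h2
  rw [cmp, Function.comp_apply, h2, h1, ContinuousLinearMap.comp_apply, add_sub_cancel_right]
  abel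

theorem cmp_point {ω : V →L[ℝ] V →L[ℝ] ℝ} (hω : IsSympForm ω) {b : Module.Basis κ ℝ V}
    {C : V →L[ℝ] V} (hC : ∀ u v, ω (C u) (C v) = ω u v)
    (hC1 : ∀ x, C x = -x → x = 0) (hC2 : CoKer b C)
    (g : ℕ → GFd ω b) (a : V) (N : ℕ) :
    ∃ z, cmp g N z = C (z - a) + a + ∑ i ∈ Finset.range N, (g i).s := by
  rcases Nat.even_or_odd N with hN | hN
  · set g' : ℕ → GFd ω b := fun i => if i < N then g i else GFd.transl ω b 0 with hg'
    obtain ⟨z, hz⟩ := cmp_point_odd hω hC hC1 hC2 g' a hN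
    refine ⟨z, ?_⟩
    have h1 : cmp g' (N + 1) z = cmp g N z := by
      rw [cmp, Function.comp_apply, cmp_congr (g := g') (g' := g) (fun k hk => by simp [hg', hk])]
      simp [hg', GFd.transl]
    have h2 : ∑ i ∈ Finset.range (N + 1), (g' i).s = ∑ i ∈ Finset.range N, (g i).s := by
      rw [Finset.sum_range_succ]
      have h3 : (g' N).s = 0 := by simp [hg', GFd.transl]
      rw [h3, add_zero]
      refine Finset.sum_congr rfl fun i hi => ?_
      simp [hg', Finset.mem_range.1 hi]
    rw [← h1, hz, h2]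
  · obtain ⟨m, rfl⟩ := hN
    exact cmp_point_odd hω hC hC1 hC2 g a (even_two_mul m)

/-- compositions of maps with periodic generating functions, with the total flux -/
def IsChain (ω : V →L[ℝ] V →L[ℝ] ℝ) (b : Module.Basis κ ℝ V) (F : V → V) (t : V) : Prop :=
  ∃ (N : ℕ) (g : ℕ → GFd ω b), F = cmp g N ∧ t = ∑ i ∈ Finset.range N, (g i).s

variable {ω : V →L[ℝ] V →L[ℝ] ℝ} {b : Module.Basis κ ℝ V}

theorem IsChain.point (hω : IsSympForm ω) {C : V →L[ℝ] V} (hC : ∀ u v, ω (C u) (C v) = ω u v)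
    (hC1 : ∀ x, C x = -x → x = 0) (hC2 : CoKer b C) {F : V → V} {t : V}
    (h : IsChain ω b F t) (a : V) : ∃ z, F z = C (z - a) + a + t := by
  obtain ⟨N, g, rfl, rfl⟩ := h
  exact cmp_point hω hC hC1 hC2 g a N

theorem isChain_id : IsChain ω b id 0 := ⟨0, fun _ => GFd.transl ω b 0, rfl, by simp⟩

theorem isChain_GFd (g : GFd ω b) : IsChain ω b g.f g.s := ⟨1, fun _ => g, rfl, by simp⟩

theorem isChain_transl (s : V) : IsChain ω b (fun z => z + s) s :=
  isChain_GFd (GFd.transl ω b s)

theorem IsChain.comp {F G : V → V} {t u : V} (hF : IsChain ω b F t) (hG : IsChain ω b G u) :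
    IsChain ω b (G ∘ F) (t + u) := by
  obtain ⟨N, g, rfl, rfl⟩ := hF
  obtain ⟨N', g', rfl, rfl⟩ := hG
  set g'' : ℕ → GFd ω b := fun i => if i < N then g i else g' (i - N) with hg''
  have h1 : cmp g'' N = cmp g N := cmp_congr fun k hk => by simp [hg'', hk]
  have h2 : ∀ k, cmp g'' (N + k) = cmp g' k ∘ cmp g N := by
    intro k
    induction k with
    | zero => rw [add_zero, h1]; rfl
    | succ k ih =>
      rw [← add_assoc, cmp, ih, cmp, hg'']
      simp only [if_neg (by omega : ¬ N + k < N), Nat.add_sub_cancel_left]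
      rfl
  refine ⟨N + N', g'', (h2 N').symm, ?_⟩
  rw [Finset.sum_range_add]
  congr 1
  · refine Finset.sum_congr rfl fun i hi => ?_
    rw [hg'']
    simp only [if_pos (Finset.mem_range.1 hi)]
  · refine Finset.sum_congr rfl fun i _ => ?_
    rw [hg'']
    simp only [if_neg (by omega : ¬ N + i < N), Nat.add_sub_cancel_left]

theorem IsChain.conj {F : V → V} {t : V} (hF : IsChain ω b F t) (A : V ≃L[ℝ] V)
    (hA : ∀ u v, ω (A u) (A v) = ω u v)
    (hb : ∀ i, A (b i) ∈ Submodule.span ℤ (Set.range b)) :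
    IsChain ω b (fun z => A.symm (F (A z))) (A.symm t) := by
  obtain ⟨N, g, rfl, rfl⟩ := hF
  refine ⟨N, fun i => (g i).conj A hA hb, ?_, ?_⟩
  · induction N with
    | zero => funext z; simp [cmp]
    | succ N ih =>
      have h1 : cmp (fun i => (g i).conj A hA hb) (N + 1) =
        ((g N).conj A hA hb).f ∘ cmp (fun i => (g i).conj A hA hb) N := rfl
      rw [h1, ← ih]
      funext z
      simp [cmp, GFd.conj]
  · rw [map_sum]
    rfl

end Pool.Agent.T6.H48.CZ.Mid
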