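import Pool.Agent.T6.H48.CZ.Tower

/-!
# Closing
-/

set_option autoImplicit false

open Set Filter Topology

namespace Pool.Agent.T6.H48.CZ

open Pool.Agent.H922R3.CL (Zn IsDiffeoLift IsPer Zn_near)

theorem isInt_iff_Zn {m : ℕ} (v : Fin m → ℝ) : IsInt v ↔ v ∈ Zn m := Iff.rfl

/-- The point of the torus represented by `z` is in the closure of every forward orbit of the map
with lift `F`. -/
def InAllOrbits {m : ℕ} (F : (Fin m → ℝ) → (Fin m → ℝ)) (z : Fin m → ℝ) : Prop :=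
  ∀ x : Fin m → ℝ, ∀ δ : ℝ, 0 < δ → ∃ n : ℕ, ∃ p ∈ Zn m, ‖F^[n] x - (z + p)‖ < δ

theorem iter_latt {m : ℕ} {G : (Fin m → ℝ) → (Fin m → ℝ)}
    (hG : ∀ p ∈ Zn m, ∃ p' ∈ Zn m, ∀ z, G (z + p) = G z + p') (n : ℕ) :
    ∀ p ∈ Zn m, ∃ p' ∈ Zn m, ∀ z, G^[n] (z + p) = G^[n] z + p' := by
  induction n with
  | zero => intro p hp; exact ⟨p, hp, fun z => rfl⟩
  | succ n ih =>
    intro p hp
    obtain ⟨p', hp', h1⟩ := ih p hp
    obtain ⟨p'', hp'', h2⟩ := hG p' hp'
    exact ⟨p'', hp'', fun z => by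
      rw [Function.iterate_succ_apply', Function.iterate_succ_apply', h1, h2]⟩

/-- periodic points can be moved along orbits -/
theorem per_iter {m : ℕ} {G : (Fin m → ℝ) → (Fin m → ℝ)}
    (hG : ∀ p ∈ Zn m, ∃ p' ∈ Zn m, ∀ z, G (z + p) = G z + p') {N : ℕ} {z : Fin m → ℝ}
    (hz : G^[N] z - z ∈ Zn m) (n : ℕ) : G^[N] (G^[n] z) - G^[n] z ∈ Zn m := by
  obtain ⟨p', hp', h1⟩ := iter_latt hG n _ hz
  have h2 : z + (G^[N] z - z) = G^[N] z := by abel
  have h3 := h1 z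
  rw [h2] at h3
  rw [← Function.iterate_add_apply, add_comm, Function.iterate_add_apply, h3, add_sub_cancel_left]
  exact hp'

theorem main {m : ℕ} {r : ℕ∞} {lev : Fin m → ℕ} {F : (Fin m → ℝ) ≃ (Fin m → ℝ)}
    (hF : IsDiffeoLift (Zn m) r F) (hT : IsSympTower lev F) {z : Fin m → ℝ}
    (hz : InAllOrbits F z) {k : ℕ} (hk : (k : ℕ∞) ≤ r) {ε : ℝ} (hε : 0 < ε) :
    ∃ (u w : Fin m → ℝ) (G : (Fin m → ℝ) ≃ (Fin m → ℝ)), ‖u‖ < ε ∧ ‖w‖ < ε ∧
      (∀ x, G x = F (x - w) + u) ∧ IsDiffeoLift (Zn m) r G ∧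
      (∀ j ≤ k, ∀ x, ‖iteratedFDeriv ℝ j (fun x => G x - F x) x‖ < ε) ∧
      IsPer (Zn m) G z := by
  obtain ⟨ρ, hρ, hclose⟩ := hF.close (Zn_near m) hk hε
  have hFc : Continuous F := hF.smooth.continuous
  have hFl : ∀ p ∈ Zn m, ∃ p' ∈ Zn m, ∀ z, F (z + p) = F z + p' := hF.latt
  have hGl : ∀ u : Fin m → ℝ, ∀ p ∈ Zn m, ∃ p' ∈ Zn m, ∀ z, Fu F u (z + p) = Fu F u z + p' := by
    intro u p hp
    obtain ⟨p', hp', h⟩ := hFl p hp
    refine ⟨p', hp', fun z => ?_⟩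
    rw [Fu, Fu, h]
    abel
  set η : ℝ := min ρ ε / 3 with hη
  have hη0 : 0 < η := by positivity
  -- periodic orbits after small translations
  have hper : ∀ n : ℕ, ∃ u y : Fin m → ℝ, ‖u‖ < 1 / ((n : ℝ) + 1) ∧ ‖y‖ ≤ 1 ∧
      ∃ N : ℕ, 1 ≤ N ∧ (Fu F u)^[N] y - y ∈ Zn m := by
    intro n
    obtain ⟨u, y, hu, N, hN1, hN⟩ := PP_all (lev := lev) hFc hFl hT
      (ε := 1 / ((n : ℝ) + 1)) (by positivity)
    obtain ⟨p, hp, hyp⟩ := Zn_near m y
    refine ⟨u, y - p, hu, hyp, N, hN1, ?_⟩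
    obtain ⟨p', hp', h1⟩ := iter_latt (hGl u) N (-p) (neg_mem hp)
    rw [sub_eq_add_neg y p, h1]
    have e : (Fu F u)^[N] y + p' - (y + -p) = ((Fu F u)^[N] y - y) + p' + p := by abel
    rw [e]
    exact add_mem (add_mem hN hp') hp
  choose u y hu hy N hN1 hN using hper
  -- a limit point
  obtain ⟨a, -, φ, hφ, ha⟩ := (isCompact_closedBall (0 : Fin m → ℝ) 1).tendsto_subseq
    (x := y) (fun n => mem_closedBall_zero_iff.2 (hy n))
  have hu0 : Tendsto (fun n => u (φ n)) atTop (𝓝 0) := by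
    have h1 : Tendsto u atTop (𝓝 0) := by
      refine squeeze_zero_norm (fun n => (hu n).le) ?_
      exact tendsto_one_div_add_atTop_nhds_zero_nat
    exact h1.comp hφ.tendsto_atTop
  obtain ⟨n, p, hp, hn⟩ := hz a η hη0
  -- iterates depend continuously on the translation and the point
  have hcont : ∀ n : ℕ, Continuous fun q : (Fin m → ℝ) × (Fin m → ℝ) => (Fu F q.1)^[n] q.2 := by
    intro n
    induction n with
    | zero => exact continuous_snd
    | succ n ih =>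
      have e : (fun q : (Fin m → ℝ) × (Fin m → ℝ) => (Fu F q.1)^[n + 1] q.2) =
          fun q => F ((Fu F q.1)^[n] q.2) + q.1 := by
        funext q
        rw [Fu_succ]
      rw [e]
      exact (hFc.comp ih).add continuous_fst
  have hlim : Tendsto (fun j => (Fu F (u (φ j)))^[n] (y (φ j))) atTop (𝓝 (F^[n] a)) := by
    have h1 := ((hcont n).tendsto (0, a)).comp (hu0.prodMk_nhds ha)
    have h2 : (Fu F (0 : Fin m → ℝ)) = F := by
      funext x
      rw [Fu, add_zero]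
    simp only [h2] at h1
    exact h1
  have hev1 := (Metric.tendsto_atTop.1 hlim) (η) hη0
  have hev2 := (Metric.tendsto_atTop.1 hu0) (η) hη0
  obtain ⟨J1, hJ1⟩ := hev1
  obtain ⟨J2, hJ2⟩ := hev2
  set J := φ (max J1 J2) with hJ
  have h1 : ‖(Fu F (u J))^[n] (y J) - F^[n] a‖ < η := by
    rw [← dist_eq_norm]
    exact hJ1 _ (le_max_left _ _)
  have h2 : ‖u J‖ < η := by
    have := hJ2 _ (le_max_right J1 J2)
    rwa [dist_zero_right] at this
  -- the periodic point near `z`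
  set b : Fin m → ℝ := (Fu F (u J))^[n] (y J) - p with hb
  set w : Fin m → ℝ := z - b with hw
  have hwη : ‖w‖ < 2 * η := by
    have e : w = -(((Fu F (u J))^[n] (y J) - F^[n] a) + (F^[n] a - (z + p))) := by
      rw [hw, hb]; abel
    rw [e, norm_neg]
    refine (norm_add_le _ _).trans_lt ?_
    linarith
  have hbper : (Fu F (u J))^[N J] b - b ∈ Zn m := by
    have h3 := per_iter (hGl (u J)) (hN J) n
    obtain ⟨p', hp', h4⟩ := iter_latt (hGl (u J)) (N J) (-p) (neg_mem hp)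
    rw [hb, sub_eq_add_neg _ p, h4]
    have e : (Fu F (u J))^[N J] ((Fu F (u J))^[n] (y J)) + p' - ((Fu F (u J))^[n] (y J) + -p) =
      ((Fu F (u J))^[N J] ((Fu F (u J))^[n] (y J)) - (Fu F (u J))^[n] (y J)) + p' + p := by abel
    rw [e]
    exact add_mem (add_mem h3 hp') hp
  have huw : ‖u J + w‖ < 3 * η := by
    refine (norm_add_le _ _).trans_lt ?_
    linarith
  have h3η : 3 * η = min ρ ε := by rw [hη]; ring
  have hε1 : 3 * η ≤ ε := h3η.trans_le (min_le_right _ _)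
  have hρ1 : 3 * η ≤ ρ := h3η.trans_le (min_le_left _ _)
  refine ⟨u J + w, w, ((Equiv.subRight w).trans F).trans (Equiv.addRight (u J + w)),
    huw.trans_le hε1, by linarith, fun _ => rfl, hF.transl _ _,
    fun j hj x => hclose (u J + w) w (huw.trans_le hρ1) (by linarith) j hj x, N J, hN1 J, ?_⟩
  have hit : ∀ j : ℕ, (((Equiv.subRight w).trans F).trans (Equiv.addRight (u J + w)))^[j] z =
      (Fu F (u J))^[j] b + w := by
    intro j
    induction j with
    | zero =>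
      change z = b + w
      rw [hw]; abel
    | succ j ih =>
      rw [Function.iterate_succ_apply', ih, Fu_succ]
      change F ((Fu F (u J))^[j] b + w - w) + (u J + w) = _
      rw [add_sub_cancel_right, add_assoc]
  rw [hit]
  have e : (Fu F (u J))^[N J] b + w - z = (Fu F (u J))^[N J] b - b := by
    rw [hw]; abel
  rw [e]
  exact hbper

end Pool.Agent.T6.H48.CZ
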