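import Mathlib
import Pool.Agent.Helper133.Brouwer

/-!
# A saddle point theorem for bounded perturbations of quadratic forms

`A` is a symmetric linear map of a Euclidean space `H`, `b : H → ℝ` has bounded Lipschitz derivative
and is periodic in the directions of the kernel of `A`. Then `½ ⟨A z, z⟩ + b z` has a critical point.
Proof: otherwise normalised gradient steps decrease the function by a fixed amount; Brouwer's theorem
shows that the image of the negative space under the iterated gradient step meets the nonnegative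
space, on which the function is bounded below.
-/

set_option autoImplicit false

open Set Filter Topology
open scoped RealInnerProductSpace

namespace Pool.Agent.T6.H48.CZ

variable {H : Type*} [NormedAddCommGroup H] [InnerProductSpace ℝ H] [FiniteDimensional ℝ H]

/-- The gradient as a vector. -/
noncomputable def gr (A : H →ₗ[ℝ] H) (b' : H → H →L[ℝ] ℝ) (z : H) : H :=
  A z + (InnerProductSpace.toDual ℝ H).symm (b' z)

theorem inner_gr (A : H →ₗ[ℝ] H) (b' : H → H →L[ℝ] ℝ) (z v : H) :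
    ⟪gr A b' z, v⟫ = ⟪A z, v⟫ + b' z v := by
  rw [gr, inner_add_left, InnerProductSpace.toDual_symm_apply]

/-- The function. -/
noncomputable def ph (A : H →ₗ[ℝ] H) (b : H → ℝ) (z : H) : ℝ := ⟪A z, z⟫ / 2 + b z

theorem hasFDerivAt_ph {A : H →ₗ[ℝ] H} (hA : A.IsSymmetric) {b : H → ℝ} {b' : H → H →L[ℝ] ℝ}
    (hb : ∀ z, HasFDerivAt b (b' z) z) (z : H) :
    HasFDerivAt (ph A b) (innerSL ℝ (gr A b' z)) z := by
  have h1 : HasFDerivAt (fun z : H => A z) (LinearMap.toContinuousLinearMap A) z :=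
    (LinearMap.toContinuousLinearMap A).hasFDerivAt
  have h2 : HasFDerivAt (fun z : H => z) (ContinuousLinearMap.id ℝ H) z := hasFDerivAt_id z
  have h3 := (h1.inner ℝ h2)
  have h4 := (h3.mul_const (1 / 2 : ℝ)).add (hb z)
  have e : ph A b = fun z => ⟪A z, z⟫ * (1 / 2) + b z := by
    funext w
    rw [ph]
    ring
  rw [e]
  refine h4.congr_fderiv ?_
  ext v
  simp only [add_apply, smul_apply, innerSL_apply_apply,
    inner_gr, fderivInnerCLM_apply, ContinuousLinearMap.coe_comp, Function.comp_apply,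
    ContinuousLinearMap.prod_apply, ContinuousLinearMap.coe_id', id_eq,
    LinearMap.coe_toContinuousLinearMap', smul_eq_mul]
  rw [hA v z, real_inner_comm v (A z)]
  rw [real_inner_comm (A z) v]
  ring


/-- descent lemma -/
theorem descent {f : H → ℝ} {g : H → H} (hf : ∀ z, HasFDerivAt f (innerSL ℝ (g z)) z) {L : ℝ}
    (hL0 : 0 ≤ L) (hL : ∀ z w, ‖g z - g w‖ ≤ L * ‖z - w‖) (z u : H) (hu : ‖u‖ ≤ 1) {τ : ℝ}
    (hτ : 0 ≤ τ) : f (z - τ • u) ≤ f z - τ * ⟪g z, u⟫ + L * τ ^ 2 := by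
  rcases hτ.eq_or_lt with rfl | hτ
  · simp
  let φ : ℝ → ℝ := fun t => f (z - t • u)
  have hφ : ∀ t, HasDerivAt φ (-⟪g (z - t • u), u⟫) t := by
    intro t
    have h1 : HasDerivAt (fun t : ℝ => z - t • u) (-u) t := by
      have h2 := ((hasDerivAt_id t).smul_const u).const_sub z
      simpa using h2
    have h3 := (hf (z - t • u)).comp_hasDerivAt t h1
    have e : innerSL ℝ (g (z - t • u)) (-u) = -⟪g (z - t • u), u⟫ := by
      rw [innerSL_apply_apply, inner_neg_right]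
    rw [e] at h3
    exact h3
  obtain ⟨c, ⟨hc0, hcτ⟩, hc⟩ := exists_hasDerivAt_eq_slope φ (fun t => -⟪g (z - t • u), u⟫) hτ
    (fun t _ => (hφ t).continuousAt.continuousWithinAt) (fun t _ => hφ t)
  have h1 : φ τ - φ 0 = -⟪g (z - c • u), u⟫ * τ := by
    rw [hc]
    field_simp
    ring
  have h2 : φ 0 = f z := by simp [φ]
  have h3 : -⟪g (z - c • u), u⟫ ≤ -⟪g z, u⟫ + L * τ := by
    have h4 : ⟪g z - g (z - c • u), u⟫ ≤ L * τ := by
      calc ⟪g z - g (z - c • u), u⟫ ≤ ‖g z - g (z - c • u)‖ * ‖u‖ := real_inner_le_norm _ _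
        _ ≤ (L * ‖z - (z - c • u)‖) * ‖u‖ := by gcongr; exact hL _ _
        _ = (L * c) * (‖u‖ * ‖u‖) := by
          rw [sub_sub_cancel, norm_smul, Real.norm_eq_abs, abs_of_pos hc0]
          ring
        _ ≤ (L * τ) * (1 * 1) := by gcongr
        _ = L * τ := by ring
    rw [inner_sub_left] at h4
    linarith
  have h4 : φ τ = f (z - τ • u) := rfl
  rw [← h4, ← h2]
  nlinarith

/-- The normalised gradient step. -/
noncomputable def stp (g : H → H) (τ : ℝ) (z : H) : H := z - τ • ((1 + ‖g z‖)⁻¹ • g z)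

theorem stp_continuous {g : H → H} (hg : Continuous g) (τ : ℝ) : Continuous (stp g τ) := by
  unfold stp
  have h : ∀ z, 1 + ‖g z‖ ≠ 0 := fun z => by positivity
  fun_prop (disch := exact h _)

theorem norm_unit (w : H) : ‖(1 + ‖w‖)⁻¹ • w‖ ≤ 1 := by
  have h : 0 < 1 + ‖w‖ := by positivity
  rw [norm_smul, norm_inv, Real.norm_eq_abs, abs_of_pos h, inv_mul_le_iff₀ h]
  linarith

theorem stp_near (g : H → H) {τ : ℝ} (hτ : 0 ≤ τ) (z : H) : ‖stp g τ z - z‖ ≤ τ := by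
  rw [stp, sub_sub_cancel_left, norm_neg, norm_smul, Real.norm_eq_abs, abs_of_nonneg hτ]
  calc τ * ‖(1 + ‖g z‖)⁻¹ • g z‖ ≤ τ * 1 := by gcongr; exact norm_unit _
    _ = τ := mul_one τ

theorem stp_iter_near (g : H → H) {τ : ℝ} (hτ : 0 ≤ τ) (k : ℕ) (z : H) :
    ‖(stp g τ)^[k] z - z‖ ≤ k * τ := by
  induction k with
  | zero => simp
  | succ k ih =>
    rw [Function.iterate_succ_apply']
    calc ‖stp g τ ((stp g τ)^[k] z) - z‖
        = ‖(stp g τ ((stp g τ)^[k] z) - (stp g τ)^[k] z) + ((stp g τ)^[k] z - z)‖ := by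
          congr 1; abel
      _ ≤ ‖stp g τ ((stp g τ)^[k] z) - (stp g τ)^[k] z‖ + ‖(stp g τ)^[k] z - z‖ := norm_add_le _ _
      _ ≤ τ + k * τ := add_le_add (stp_near g hτ _) ih
      _ = ((k + 1 : ℕ) : ℝ) * τ := by push_cast; ring

/-- A step decreases the function by a fixed amount if the gradient is bounded from below. -/
theorem stp_descent {f : H → ℝ} {g : H → H} (hf : ∀ z, HasFDerivAt f (innerSL ℝ (g z)) z) {L : ℝ}
    (hL0 : 0 < L) (hL : ∀ z w, ‖g z - g w‖ ≤ L * ‖z - w‖) {η : ℝ} (hη : 0 < η)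
    (hg : ∀ z, η ≤ ‖g z‖) : ∃ τ δ : ℝ, 0 < τ ∧ 0 < δ ∧ ∀ z, f (stp g τ z) ≤ f z - δ := by
  set c : ℝ := η ^ 2 / (1 + η) with hc
  have hc0 : 0 < c := by positivity
  refine ⟨c / (2 * L), c / (2 * L) * (c / 2), by positivity, by positivity, fun z => ?_⟩
  have h1 := descent hf hL0.le hL z ((1 + ‖g z‖)⁻¹ • g z) (norm_unit _)
    (τ := c / (2 * L)) (by positivity)
  have h2 : c ≤ ⟪g z, (1 + ‖g z‖)⁻¹ • g z⟫ := by
    rw [inner_smul_right, real_inner_self_eq_norm_sq, hc, inv_mul_eq_div,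
      div_le_div_iff₀ (by positivity) (by positivity)]
    have h3 := hg z
    have h4 : 0 ≤ ‖g z‖ := norm_nonneg _
    have h5 : η ^ 2 ≤ ‖g z‖ ^ 2 := by gcongr
    have h6 : 0 ≤ η * ‖g z‖ * (‖g z‖ - η) := by
      have : 0 ≤ ‖g z‖ - η := by linarith
      positivity
    nlinarith
  have h7 : f (stp g (c / (2 * L)) z) ≤ f z - c / (2 * L) * c + L * (c / (2 * L)) ^ 2 := by
    refine h1.trans ?_
    have : c / (2 * L) * c ≤ c / (2 * L) * ⟪g z, (1 + ‖g z‖)⁻¹ • g z⟫ := by gcongr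
    linarith
  have h8 : L * (c / (2 * L)) ^ 2 = c / (2 * L) * (c / 2) := by
    field_simp
  linarith

theorem stp_iter_descent {f : H → ℝ} {g : H → H} {τ δ : ℝ}
    (h : ∀ z, f (stp g τ z) ≤ f z - δ) (k : ℕ) (z : H) : f ((stp g τ)^[k] z) ≤ f z - k * δ := by
  induction k with
  | zero => simp
  | succ k ih =>
    rw [Function.iterate_succ_apply']
    have := h ((stp g τ)^[k] z)
    push_cast
    linarith


section diag

variable {m : ℕ}

/-- coordinate projections -/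
noncomputable def pr (S : Fin m → Prop) [DecidablePred S] (z : EuclideanSpace ℝ (Fin m)) :
    EuclideanSpace ℝ (Fin m) := WithLp.toLp 2 fun i => if S i then z i else 0

@[simp] theorem pr_apply (S : Fin m → Prop) [DecidablePred S] (z : EuclideanSpace ℝ (Fin m))
    (i : Fin m) : pr S z i = if S i then z i else 0 := rfl

theorem pr_sub (S : Fin m → Prop) [DecidablePred S] (z w : EuclideanSpace ℝ (Fin m)) :
    pr S z - pr S w = pr S (z - w) := by
  ext i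
  simp only [PiLp.sub_apply, pr_apply]
  split_ifs <;> simp

theorem pr_idem_sub (S : Fin m → Prop) [DecidablePred S] (z w : EuclideanSpace ℝ (Fin m)) :
    pr S z - pr S w = pr S (pr S z - w) := by
  ext i
  simp only [PiLp.sub_apply, pr_apply]
  split_ifs <;> simp

theorem pr_norm_le (S : Fin m → Prop) [DecidablePred S] (z : EuclideanSpace ℝ (Fin m)) :
    ‖pr S z‖ ≤ ‖z‖ := by
  rw [← sq_le_sq₀ (norm_nonneg _) (norm_nonneg _), EuclideanSpace.real_norm_sq_eq,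
    EuclideanSpace.real_norm_sq_eq]
  refine Finset.sum_le_sum fun i _ => ?_
  rw [pr_apply]
  split_ifs
  · exact le_rfl
  · simpa using sq_nonneg (z i)

theorem pr_continuous (S : Fin m → Prop) [DecidablePred S] :
    Continuous (pr S : EuclideanSpace ℝ (Fin m) → EuclideanSpace ℝ (Fin m)) := by
  have h : LipschitzWith 1 (pr S : EuclideanSpace ℝ (Fin m) → EuclideanSpace ℝ (Fin m)) := by
    refine LipschitzWith.of_dist_le_mul fun z w => ?_
    rw [dist_eq_norm, dist_eq_norm, pr_sub, NNReal.coe_one, one_mul]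
    exact pr_norm_le S _
  exact h.continuous

theorem exists_gap (μ : Fin m → ℝ) : ∃ l : ℝ, 0 < l ∧ ∀ i, μ i ≠ 0 → l ≤ |μ i| := by
  refine ⟨(1 + ∑ j, |μ j|⁻¹)⁻¹, ?_, fun i hi => ?_⟩
  · have : 0 ≤ ∑ j, |μ j|⁻¹ := Finset.sum_nonneg fun j _ => inv_nonneg.2 (abs_nonneg _)
    positivity
  · have h1 : |μ i|⁻¹ ≤ ∑ j, |μ j|⁻¹ :=
      Finset.single_le_sum (f := fun j => |μ j|⁻¹) (fun j _ => inv_nonneg.2 (abs_nonneg _))
        (Finset.mem_univ i)
    have h2 : 0 < |μ i| := abs_pos.2 hi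
    have h3 : 0 < |μ i|⁻¹ := inv_pos.2 h2
    rw [inv_le_comm₀ (by linarith) h2]
    linarith

theorem sym_of_diag (A : EuclideanSpace ℝ (Fin m) →ₗ[ℝ] EuclideanSpace ℝ (Fin m))
    (μ : Fin m → ℝ) (hμ : ∀ z i, A z i = μ i * z i) : A.IsSymmetric := by
  intro z w
  rw [PiLp.inner_apply, PiLp.inner_apply]
  refine Finset.sum_congr rfl fun i _ => ?_
  rw [hμ, hμ]
  simp only [RCLike.inner_apply, conj_trivial]
  ring

theorem b_lip {b : EuclideanSpace ℝ (Fin m) → ℝ}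
    {b' : EuclideanSpace ℝ (Fin m) → EuclideanSpace ℝ (Fin m) →L[ℝ] ℝ}
    (hb : ∀ z, HasFDerivAt b (b' z) z) {C : ℝ} (hC : ∀ z, ‖b' z‖ ≤ C) (z w) :
    |b z - b w| ≤ C * ‖z - w‖ :=
  convex_univ.norm_image_sub_le_of_norm_hasFDerivWithin_le
    (fun x _ => (hb x).hasFDerivWithinAt) (fun x _ => hC x) (mem_univ w) (mem_univ z)

theorem b_ker {A : EuclideanSpace ℝ (Fin m) →ₗ[ℝ] EuclideanSpace ℝ (Fin m)}
    {b : EuclideanSpace ℝ (Fin m) → ℝ}
    {b' : EuclideanSpace ℝ (Fin m) → EuclideanSpace ℝ (Fin m) →L[ℝ] ℝ}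
    (hb : ∀ z, HasFDerivAt b (b' z) z) {C D : ℝ} (hC : ∀ z, ‖b' z‖ ≤ C) (hC0 : 0 ≤ C)
    {Λ : Set (EuclideanSpace ℝ (Fin m))}
    (hΛ : ∀ l ∈ Λ, A l = 0 ∧ ∀ z, b (z + l) = b z)
    (hD : ∀ z, A z = 0 → ∃ l ∈ Λ, ‖z + l‖ ≤ D) (z) (hz : A z = 0) : |b z - b 0| ≤ C * D := by
  obtain ⟨v, hv, hvD⟩ := hD z hz
  rw [← (hΛ v hv).2 z]
  calc |b (z + v) - b 0| ≤ C * ‖z + v - 0‖ := b_lip hb hC _ _
    _ ≤ C * D := by rw [sub_zero]; gcongr

theorem gr_per {A : EuclideanSpace ℝ (Fin m) →ₗ[ℝ] EuclideanSpace ℝ (Fin m)}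
    {b : EuclideanSpace ℝ (Fin m) → ℝ}
    {b' : EuclideanSpace ℝ (Fin m) → EuclideanSpace ℝ (Fin m) →L[ℝ] ℝ}
    (hb : ∀ z, HasFDerivAt b (b' z) z)
    {v : EuclideanSpace ℝ (Fin m)}
    (hv : A v = 0) (hv2 : ∀ z, b (z + v) = b z) (z) : gr A b' (z + v) = gr A b' z := by
  have h1 : b' (z + v) = b' z := by
    have h2 : HasFDerivAt (fun z => b (z + v)) (b' (z + v)) z :=
      (hasFDerivAt_comp_add_right v).2 (hb (z + v))
    have h4 : (fun z => b (z + v)) = b := funext fun z => hv2 z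
    rw [h4] at h2
    exact h2.unique (hb z)
  simp only [gr]
  rw [h1, map_add, hv, add_zero]

theorem gr_lip {A : EuclideanSpace ℝ (Fin m) →ₗ[ℝ] EuclideanSpace ℝ (Fin m)}
    {b' : EuclideanSpace ℝ (Fin m) → EuclideanSpace ℝ (Fin m) →L[ℝ] ℝ} {K : ℝ}
    (hK : ∀ z w, ‖b' z - b' w‖ ≤ K * ‖z - w‖) :
    ∃ L : ℝ, 0 < L ∧ ∀ z w, ‖gr A b' z - gr A b' w‖ ≤ L * ‖z - w‖ := by
  refine ⟨‖LinearMap.toContinuousLinearMap A‖ + |K| + 1, by positivity, ?_⟩
  intro z w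
  have e : gr A b' z - gr A b' w = LinearMap.toContinuousLinearMap A (z - w) +
      (InnerProductSpace.toDual ℝ (EuclideanSpace ℝ (Fin m))).symm (b' z - b' w) := by
    simp only [gr, map_sub, LinearMap.coe_toContinuousLinearMap']
    abel
  rw [e]
  calc _ ≤ ‖LinearMap.toContinuousLinearMap A (z - w)‖ +
        ‖(InnerProductSpace.toDual ℝ (EuclideanSpace ℝ (Fin m))).symm (b' z - b' w)‖ :=
        norm_add_le _ _
    _ ≤ ‖LinearMap.toContinuousLinearMap A‖ * ‖z - w‖ + K * ‖z - w‖ := by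
        refine add_le_add (ContinuousLinearMap.le_opNorm _ _) ?_
        rw [LinearIsometryEquiv.norm_map]
        exact hK z w
    _ ≤ (‖LinearMap.toContinuousLinearMap A‖ + |K| + 1) * ‖z - w‖ := by
        have h1 : K * ‖z - w‖ ≤ |K| * ‖z - w‖ := by gcongr; exact le_abs_self K
        have h2 : 0 ≤ ‖z - w‖ := norm_nonneg _
        nlinarith

theorem A_pr_zero {A : EuclideanSpace ℝ (Fin m) →ₗ[ℝ] EuclideanSpace ℝ (Fin m)}
    {μ : Fin m → ℝ} [DecidablePred fun i => μ i = 0] (hμ : ∀ z i, A z i = μ i * z i) (z) :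
    A (pr (fun i => μ i = 0) z) = 0 := by
  ext i
  rw [hμ, pr_apply]
  split_ifs with h
  · rw [h]; simp
  · simp

theorem pr_dec {μ : Fin m → ℝ} [DecidablePred fun i => μ i = 0] [DecidablePred fun i => μ i ≠ 0]
    (z : EuclideanSpace ℝ (Fin m)) :
    pr (fun i => μ i = 0) z + pr (fun i => μ i ≠ 0) z = z := by
  ext i
  rw [PiLp.add_apply, pr_apply, pr_apply]
  by_cases h : μ i = 0 <;> simp [h]

theorem A_lower {A : EuclideanSpace ℝ (Fin m) →ₗ[ℝ] EuclideanSpace ℝ (Fin m)}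
    {μ : Fin m → ℝ} [DecidablePred fun i => μ i ≠ 0] (hμ : ∀ z i, A z i = μ i * z i)
    {l : ℝ} (hl0 : 0 < l) (hl : ∀ i, μ i ≠ 0 → l ≤ |μ i|) (z) :
    l * ‖pr (fun i => μ i ≠ 0) z‖ ≤ ‖A z‖ := by
  rw [← sq_le_sq₀ (by positivity) (norm_nonneg _), mul_pow, EuclideanSpace.real_norm_sq_eq,
    EuclideanSpace.real_norm_sq_eq, Finset.mul_sum]
  refine Finset.sum_le_sum fun i _ => ?_
  rw [hμ, pr_apply, mul_pow]
  split_ifs with h
  · have h1 := hl i h
    have h2 : l ^ 2 ≤ μ i ^ 2 := by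
      rw [← sq_abs (μ i)]
      gcongr
    gcongr
  · simp only [ne_eq, OfNat.ofNat_ne_zero, not_false_eq_true, zero_pow, mul_zero]
    positivity

theorem gr_lower {A : EuclideanSpace ℝ (Fin m) →ₗ[ℝ] EuclideanSpace ℝ (Fin m)}
    {μ : Fin m → ℝ} (hμ : ∀ z i, A z i = μ i * z i)
    {b : EuclideanSpace ℝ (Fin m) → ℝ}
    {b' : EuclideanSpace ℝ (Fin m) → EuclideanSpace ℝ (Fin m) →L[ℝ] ℝ}
    (hb : ∀ z, HasFDerivAt b (b' z) z) {C D : ℝ} (hC : ∀ z, ‖b' z‖ ≤ C)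
    (hC0 : 0 ≤ C) (hD0' : 0 ≤ D)
    (hgc : Continuous (gr A b')) {Λ : Set (EuclideanSpace ℝ (Fin m))}
    (hΛ : ∀ l ∈ Λ, A l = 0 ∧ ∀ z, b (z + l) = b z)
    (hD : ∀ z, A z = 0 → ∃ l ∈ Λ, ‖z + l‖ ≤ D) {l : ℝ} (hl0 : 0 < l)
    (hl : ∀ i, μ i ≠ 0 → l ≤ |μ i|)
    (hg0 : ∀ z, gr A b' z ≠ 0) : ∃ η : ℝ, 0 < η ∧ ∀ z, η ≤ ‖gr A b' z‖ := by
  classical
  obtain ⟨z₁, hz₁, hmin⟩ := (isCompact_closedBall (0 : EuclideanSpace ℝ (Fin m))
    (D + (C + 1) / l)).exists_isMinOn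
    ⟨0, Metric.mem_closedBall_self (by positivity)⟩ hgc.norm.continuousOn
  refine ⟨min 1 ‖gr A b' z₁‖, lt_min one_pos (norm_pos_iff.2 (hg0 z₁)), fun z => ?_⟩
  by_cases hz : (C + 1) / l ≤ ‖pr (fun i => μ i ≠ 0) z‖
  · refine (min_le_left _ _).trans ?_
    have h1 : C + 1 ≤ ‖A z‖ := by
      rw [div_le_iff₀' hl0] at hz
      exact hz.trans (A_lower hμ hl0 hl z)
    have h2 : ‖A z‖ - ‖b' z‖ ≤ ‖gr A b' z‖ := by
      have h3 : A z = gr A b' z -
          (InnerProductSpace.toDual ℝ (EuclideanSpace ℝ (Fin m))).symm (b' z) := by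
        simp [gr]
      have h4 : ‖A z‖ ≤ ‖gr A b' z‖ + ‖b' z‖ := by
        conv_lhs => rw [h3]
        refine (norm_sub_le _ _).trans ?_
        rw [LinearIsometryEquiv.norm_map]
      linarith
    have := hC z
    linarith
  · push Not at hz
    refine (min_le_right _ _).trans ?_
    obtain ⟨v, hv, hvD⟩ := hD _ (A_pr_zero hμ z)
    rw [← gr_per hb (hΛ v hv).1 (hΛ v hv).2 z]
    apply hmin
    rw [mem_closedBall_zero_iff]
    have e : z + v = (pr (fun i => μ i = 0) z + v) + pr (fun i => μ i ≠ 0) z := by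
      conv_lhs => rw [← pr_dec (μ := μ) z]
      abel
    rw [e]
    refine (norm_add_le _ _).trans ?_
    gcongr

theorem quad_bound {C l : ℝ} (hl0 : 0 < l) (t : ℝ) :
    -(C ^ 2 / (2 * l)) ≤ l / 2 * t ^ 2 - C * t := by
  have h1 : 0 ≤ l / 2 * (t - C / l) ^ 2 := by positivity
  have h2 : l / 2 * (t - C / l) ^ 2 = l / 2 * t ^ 2 - C * t + C ^ 2 / (2 * l) := by
    field_simp
    ring
  linarith

theorem inner_diag {A : EuclideanSpace ℝ (Fin m) →ₗ[ℝ] EuclideanSpace ℝ (Fin m)}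
    {μ : Fin m → ℝ} (hμ : ∀ z i, A z i = μ i * z i) (z : EuclideanSpace ℝ (Fin m)) :
    ⟪A z, z⟫ = ∑ i, μ i * z i ^ 2 := by
  rw [PiLp.inner_apply]
  refine Finset.sum_congr rfl fun i _ => ?_
  rw [hμ]
  simp only [RCLike.inner_apply, conj_trivial]
  ring

theorem ph_low {A : EuclideanSpace ℝ (Fin m) →ₗ[ℝ] EuclideanSpace ℝ (Fin m)}
    {μ : Fin m → ℝ} [DecidablePred fun i => μ i < 0] (hμ : ∀ z i, A z i = μ i * z i)
    {b : EuclideanSpace ℝ (Fin m) → ℝ}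
    {b' : EuclideanSpace ℝ (Fin m) → EuclideanSpace ℝ (Fin m) →L[ℝ] ℝ}
    (hb : ∀ z, HasFDerivAt b (b' z) z) {C D : ℝ} (hC : ∀ z, ‖b' z‖ ≤ C)
    (hC0 : 0 ≤ C) {Λ : Set (EuclideanSpace ℝ (Fin m))}
    (hΛ : ∀ l ∈ Λ, A l = 0 ∧ ∀ z, b (z + l) = b z)
    (hD : ∀ z, A z = 0 → ∃ l ∈ Λ, ‖z + l‖ ≤ D) {l : ℝ} (hl0 : 0 < l)
    (hl : ∀ i, μ i ≠ 0 → l ≤ |μ i|) (z) (hz : pr (fun i => μ i < 0) z = 0) :
    b 0 - C * D - C ^ 2 / (2 * l) ≤ ph A b z := by
  classical
  have hneg : ∀ i, μ i < 0 → z i = 0 := by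
    intro i hi
    have h1 : pr (fun i => μ i < 0) z i = 0 := by rw [hz]; rfl
    rw [pr_apply, if_pos hi] at h1
    exact h1
  have h1 : l * ‖pr (fun i => μ i ≠ 0) z‖ ^ 2 ≤ ⟪A z, z⟫ := by
    rw [EuclideanSpace.real_norm_sq_eq, inner_diag hμ, Finset.mul_sum]
    refine Finset.sum_le_sum fun i _ => ?_
    rw [pr_apply]
    split_ifs with h
    · rcases lt_or_gt_of_ne h with h2 | h2
      · rw [hneg i h2]; simp
      · have h3 := hl i h
        rw [abs_of_pos h2] at h3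
        nlinarith [sq_nonneg (z i)]
    · rw [not_not.1 h]; simp
  have h2 := b_lip hb hC z (pr (fun i => μ i = 0) z)
  have h3 := b_ker hb hC hC0 hΛ hD _ (A_pr_zero hμ z)
  have h4 : z - pr (fun i => μ i = 0) z = pr (fun i => μ i ≠ 0) z := by
    rw [sub_eq_iff_eq_add']
    exact (pr_dec z).symm
  rw [h4] at h2
  have h5 := quad_bound (C := C) hl0 ‖pr (fun i => μ i ≠ 0) z‖
  have h6 := (abs_le.1 h2).1
  have h7 := (abs_le.1 h3).1
  rw [ph]
  nlinarith

theorem ph_upp {A : EuclideanSpace ℝ (Fin m) →ₗ[ℝ] EuclideanSpace ℝ (Fin m)}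
    {μ : Fin m → ℝ} [DecidablePred fun i => μ i < 0] (hμ : ∀ z i, A z i = μ i * z i)
    {b : EuclideanSpace ℝ (Fin m) → ℝ}
    {b' : EuclideanSpace ℝ (Fin m) → EuclideanSpace ℝ (Fin m) →L[ℝ] ℝ}
    (hb : ∀ z, HasFDerivAt b (b' z) z) {C : ℝ} (hC : ∀ z, ‖b' z‖ ≤ C) {l : ℝ} (hl0 : 0 < l)
    (hl : ∀ i, μ i ≠ 0 → l ≤ |μ i|) (z) (hz : pr (fun i => μ i < 0) z = z) :
    ph A b z ≤ b 0 + C ^ 2 / (2 * l) := by
  have h1 : ⟪A z, z⟫ ≤ -(l * ‖z‖ ^ 2) := by
    rw [EuclideanSpace.real_norm_sq_eq, inner_diag hμ, Finset.mul_sum,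
      ← Finset.sum_neg_distrib]
    refine Finset.sum_le_sum fun i _ => ?_
    by_cases h : μ i < 0
    · have h3 := hl i h.ne
      rw [abs_of_neg h] at h3
      nlinarith [sq_nonneg (z i)]
    · have h4 : z i = 0 := by
        have h5 : pr (fun i => μ i < 0) z i = z i := by rw [hz]
        rw [pr_apply, if_neg h] at h5
        exact h5.symm
      rw [h4]; simp
  have h2 := (abs_le.1 (b_lip hb hC z 0)).2
  rw [sub_zero] at h2
  have h5 := quad_bound (C := C) hl0 ‖z‖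
  rw [ph]
  nlinarith

/-- The image of the negative space under a map at bounded distance from the identity meets the
nonnegative space. -/
theorem exists_meet {S : Fin m → Prop} [DecidablePred S]
    {T : EuclideanSpace ℝ (Fin m) → EuclideanSpace ℝ (Fin m)} (hTc : Continuous T) {R : ℝ}
    (hT : ∀ z, ‖T z - z‖ ≤ R) : ∃ v, pr S v = v ∧ pr S (T v) = 0 := by
  obtain ⟨v, hv⟩ := Pool.Agent.Helper133.Brouwer.brouwer
    (fun v => pr S v - pr S (T (pr S v)))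
    ((pr_continuous _).sub ((pr_continuous _).comp (hTc.comp (pr_continuous _)))) R (by
      intro v
      rw [pr_idem_sub]
      exact (pr_norm_le _ _).trans ((norm_sub_rev _ _).trans_le (hT _)))
  have hv1 : pr S v = v := by
    ext i
    rw [pr_apply]
    by_cases h : S i
    · rw [if_pos h]
    · rw [if_neg h]
      have h1 := congrArg (fun w : EuclideanSpace ℝ (Fin m) => w i) hv
      simp only [PiLp.sub_apply, pr_apply, if_neg h, sub_zero] at h1
      exact h1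
  refine ⟨v, hv1, ?_⟩
  rw [hv1] at hv
  simpa using hv

theorem exists_crit_diag (A : EuclideanSpace ℝ (Fin m) →ₗ[ℝ] EuclideanSpace ℝ (Fin m))
    (μ : Fin m → ℝ) (hμ : ∀ z i, A z i = μ i * z i)
    (b : EuclideanSpace ℝ (Fin m) → ℝ)
    (b' : EuclideanSpace ℝ (Fin m) → EuclideanSpace ℝ (Fin m) →L[ℝ] ℝ)
    (hb : ∀ z, HasFDerivAt b (b' z) z) (C K D : ℝ) (hC : ∀ z, ‖b' z‖ ≤ C)
    (hK : ∀ z w, ‖b' z - b' w‖ ≤ K * ‖z - w‖) (Λ : Set (EuclideanSpace ℝ (Fin m)))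
    (hΛ : ∀ l ∈ Λ, A l = 0 ∧ ∀ z, b (z + l) = b z)
    (hD : ∀ z, A z = 0 → ∃ l ∈ Λ, ‖z + l‖ ≤ D) :
    ∃ z, ∀ v, ⟪A z, v⟫ + b' z v = 0 := by
  classical
  have hA : A.IsSymmetric := sym_of_diag A μ hμ
  have hC0 : 0 ≤ C := (norm_nonneg _).trans (hC 0)
  obtain ⟨l, hl0, hl⟩ := exists_gap μ
  have hD0' : 0 ≤ D := by
    obtain ⟨v0, hv0, hD0⟩ := hD 0 (map_zero A)
    exact (norm_nonneg _).trans hD0
  by_contra hcon
  have hg0 : ∀ z, gr A b' z ≠ 0 := by
    intro z hz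
    apply hcon
    refine ⟨z, fun v => ?_⟩
    rw [← inner_gr, hz, inner_zero_left]
  have hf : ∀ z, HasFDerivAt (ph A b) (innerSL ℝ (gr A b' z)) z := hasFDerivAt_ph hA hb
  obtain ⟨L, hL0, hL⟩ := gr_lip (A := A) hK
  have hgc : Continuous (gr A b') := by
    have h1 : LipschitzWith (Real.toNNReal L) (gr A b') := by
      refine LipschitzWith.of_dist_le_mul fun z w => ?_
      rw [dist_eq_norm, dist_eq_norm, Real.coe_toNNReal _ hL0.le]
      exact hL z w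
    exact h1.continuous
  obtain ⟨η, hη, hgη⟩ := gr_lower hμ hb hC hC0 hD0' hgc hΛ hD hl0 hl hg0
  obtain ⟨τ, δ, hτ, hδ, hst⟩ := stp_descent hf hL0 hL hη hgη
  -- enough steps
  obtain ⟨k, hk⟩ := exists_nat_gt ((C ^ 2 / l + C * D) / δ)
  rw [div_lt_iff₀ hδ] at hk
  obtain ⟨v, hv1, hv2⟩ := exists_meet (S := fun i => μ i < 0)
    ((stp_continuous hgc τ).iterate k) (stp_iter_near (gr A b') hτ.le k)
  have h1 := ph_low hμ hb hC hC0 hΛ hD hl0 hl _ hv2
  have h2 := stp_iter_descent hst k v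
  have h3 := ph_upp hμ hb hC hl0 hl v hv1
  have h4 : C ^ 2 / (2 * l) + C ^ 2 / (2 * l) = C ^ 2 / l := by
    field_simp
    ring
  linarith

end diag

/-- **Critical points.** `A` is symmetric on a finite-dimensional inner product space, `b` has a
bounded Lipschitz derivative and is periodic under a cocompact set of translations of the kernel of
`A`. Then `½ ⟪A z, z⟫ + b z` has a critical point. -/
theorem exists_crit {A : H →ₗ[ℝ] H} (hA : A.IsSymmetric)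
    (b : H → ℝ) (b' : H → H →L[ℝ] ℝ)
    (hb : ∀ z, HasFDerivAt b (b' z) z) (C K D : ℝ) (hC : ∀ z, ‖b' z‖ ≤ C)
    (hK : ∀ z w, ‖b' z - b' w‖ ≤ K * ‖z - w‖) (Λ : Set H)
    (hΛ : ∀ l ∈ Λ, A l = 0 ∧ ∀ z, b (z + l) = b z)
    (hD : ∀ z, A z = 0 → ∃ l ∈ Λ, ‖z + l‖ ≤ D) :
    ∃ z, ∀ v, ⟪A z, v⟫ + b' z v = 0 := by
  set e := (hA.eigenvectorBasis rfl).repr with he
  have hC0 : 0 ≤ C := (norm_nonneg _).trans (hC 0)
  have hn : ‖(e.symm.toLinearIsometry.toContinuousLinearMap : _ →L[ℝ] H)‖ ≤ 1 :=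
    LinearIsometry.norm_toContinuousLinearMap_le _
  obtain ⟨z, hz⟩ := exists_crit_diag
    (e.toLinearEquiv.toLinearMap ∘ₗ A ∘ₗ e.symm.toLinearEquiv.toLinearMap)
    (hA.eigenvalues rfl) (by
      intro z i
      have h1 := hA.eigenvectorBasis_apply_self_apply rfl (e.symm z) i
      rw [← he, LinearIsometryEquiv.apply_symm_apply] at h1
      exact h1)
    (fun z => b (e.symm z))
    (fun z => (b' (e.symm z)).comp (e.symm.toLinearIsometry.toContinuousLinearMap))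
    (fun z => (hb (e.symm z)).comp z
      (e.symm.toLinearIsometry.toContinuousLinearMap).hasFDerivAt) C K D
    (by
      intro z
      refine (ContinuousLinearMap.opNorm_comp_le _ _).trans ?_
      calc _ ≤ C * 1 := by gcongr; exact hC _
        _ = C := mul_one C)
    (by
      intro z w
      rw [← ContinuousLinearMap.sub_comp]
      refine (ContinuousLinearMap.opNorm_comp_le _ _).trans ?_
      calc _ ≤ ‖b' (e.symm z) - b' (e.symm w)‖ * 1 := by gcongr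
        _ ≤ K * ‖z - w‖ := by
          rw [mul_one]
          refine (hK _ _).trans ?_
          rw [← map_sub, LinearIsometryEquiv.norm_map])
    (e '' Λ)
    (by
      rintro _ ⟨l, hl, rfl⟩
      refine ⟨?_, fun z => ?_⟩
      · change e (A (e.symm (e l))) = 0
        rw [LinearIsometryEquiv.symm_apply_apply, (hΛ l hl).1, map_zero]
      · rw [map_add, LinearIsometryEquiv.symm_apply_apply, (hΛ l hl).2])
    (by
      intro z hz
      have h1 : A (e.symm z) = 0 := by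
        have h2 : e (A (e.symm z)) = 0 := hz
        exact (map_eq_zero_iff e e.injective).1 h2
      obtain ⟨l, hl, hl2⟩ := hD _ h1
      refine ⟨e l, ⟨l, hl, rfl⟩, ?_⟩
      rw [← LinearIsometryEquiv.norm_map e.symm, map_add, LinearIsometryEquiv.symm_apply_apply]
      exact hl2)
  refine ⟨e.symm z, fun v => ?_⟩
  have h1 := hz (e v)
  have h2 : ⟪e (A (e.symm z)), e v⟫ + b' (e.symm z) (e.symm (e v)) = 0 := h1
  rw [LinearIsometryEquiv.symm_apply_apply, LinearIsometryEquiv.inner_map_map] at h2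
  exact h2

end Pool.Agent.T6.H48.CZ
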