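import Pool.Agent.T6.H48.CZ.Block
import Pool.Agent.T6.H48.CZ.Defs
import Pool.Agent.H922R3.CL.Circ

/-!
# Towers of circle and symplectic torus extensions
-/

set_option autoImplicit false

open Set Filter Topology

namespace Pool.Agent.T6.H48.CZ

open Pool.Agent.H922R3.CL (XO XO_close)

/-! ### integer vectors -/

section int

variable {κ : Type*}

theorem IsInt.zero : IsInt (0 : κ → ℝ) := fun _ => ⟨0, by simp⟩

theorem IsInt.add {v w : κ → ℝ} (hv : IsInt v) (hw : IsInt w) : IsInt (v + w) := by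
  intro i
  obtain ⟨a, ha⟩ := hv i
  obtain ⟨b, hb⟩ := hw i
  exact ⟨a + b, by rw [Pi.add_apply, ha, hb]; push_cast; rfl⟩

theorem IsInt.neg {v : κ → ℝ} (hv : IsInt v) : IsInt (-v) := by
  intro i
  obtain ⟨a, ha⟩ := hv i
  exact ⟨-a, by rw [Pi.neg_apply, ha]; push_cast; rfl⟩

theorem IsInt.sub {v w : κ → ℝ} (hv : IsInt v) (hw : IsInt w) : IsInt (v - w) := by
  rw [sub_eq_add_neg]; exact hv.add hw.neg

theorem isInt_iff_span [Fintype κ] (v : κ → ℝ) :
    IsInt v ↔ v ∈ Submodule.span ℤ (Set.range (Pi.basisFun ℝ κ)) := by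
  rw [Module.Basis.mem_span_iff_repr_mem]
  refine forall_congr' fun i => ?_
  rw [Pi.basisFun_repr]
  constructor
  · rintro ⟨n, hn⟩
    exact ⟨n, by rw [hn]; rfl⟩
  · rintro ⟨n, hn⟩
    exact ⟨n, by rw [← hn]; rfl⟩

theorem isInt_basis [Fintype κ] (i : κ) : IsInt (Pi.basisFun ℝ κ i) :=
  (isInt_iff_span _).2 (Submodule.subset_span ⟨i, rfl⟩)

end int

/-! ### symplectic levels -/

section symp

variable {κ : Type*} [Fintype κ] {ω : (κ → ℝ) →ₗ[ℝ] (κ → ℝ) →ₗ[ℝ] ℝ}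
  {A : (κ → ℝ) ≃ₗ[ℝ] (κ → ℝ)}

/-- the form as a continuous bilinear form -/
noncomputable def omc (ω : (κ → ℝ) →ₗ[ℝ] (κ → ℝ) →ₗ[ℝ] ℝ) : (κ → ℝ) →L[ℝ] (κ → ℝ) →L[ℝ] ℝ :=
  LinearMap.toContinuousLinearMap
    ((LinearMap.toContinuousLinearMap : ((κ → ℝ) →ₗ[ℝ] ℝ) ≃ₗ[ℝ] ((κ → ℝ) →L[ℝ] ℝ)).toLinearMap ∘ₗ ω)

theorem omc_apply (u v : κ → ℝ) : omc ω u v = ω u v := rfl

theorem IsSympForm.omc (hω : IsSympForm ω) : Mid.IsSympForm (omc ω) where
  alt v := hω.alt v
  nondeg v hv := hω.nondeg v hv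

/-- the automorphism as a continuous map -/
noncomputable def auc (A : (κ → ℝ) ≃ₗ[ℝ] (κ → ℝ)) : (κ → ℝ) ≃L[ℝ] (κ → ℝ) :=
  A.toContinuousLinearEquiv

theorem auc_apply (v : κ → ℝ) : auc A v = A v := rfl

theorem auc_pow (N : ℕ) (v : κ → ℝ) : (auc A ^ N) v = A^[N] v := by
  induction N with
  | zero => rfl
  | succ N ih =>
    rw [pow_succ', Function.iterate_succ_apply', ← ih]
    rfl

theorem IsAut.int (hA : IsAut A) (p : κ → ℝ) (hp : IsInt p) : IsInt (auc A p) := (hA p).1 hp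

theorem IsAut.int' (hA : IsAut A) (p : κ → ℝ) (hp : IsInt p) : IsInt ((auc A).symm p) := by
  have h1 := (hA ((auc A).symm p)).2
  apply h1
  have h2 : A ((auc A).symm p) = p := (auc A).apply_symm_apply p
  rw [h2]
  exact hp

theorem OneRoot.auc (hA : OneRoot A) : Mid.NoRoots (auc A) := by
  intro N hN v hv
  rw [auc_pow] at hv
  exact hA N hN v hv

theorem IsSympMap.chain (hω : IsSympForm ω) {f : (κ → ℝ) → (κ → ℝ)} (hf : IsSympMap ω A f) :
    ∃ g : (κ → ℝ) → (κ → ℝ), (∃ t, Mid.IsChain (omc ω) (Pi.basisFun ℝ κ) g t) ∧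
      ∀ x, f x = auc A (g x) := by
  obtain ⟨c, ⟨hd, -, hc, hp⟩, h0, h1, hs⟩ := hf
  obtain ⟨s, hs'⟩ := Mid.isChain_of_isotopy hω.omc (Pi.basisFun ℝ κ) h0 (fun t ht => (hd t ht).1)
    (fun t ht => (hd t ht).2) (continuousOn_clm_apply.2 hc)
    (fun t ht i x => hp t ht x _ (isInt_basis i)) hs
  exact ⟨c 1, ⟨s, hs'⟩, h1⟩

theorem symp_step (hω : IsSympForm ω) (hA : ∀ u v, ω (A u) (A v) = ω u v)
    (hAi : IsAut A) (hR : OneRoot A) {f : ℕ → (κ → ℝ) → (κ → ℝ)}
    (hf : ∀ j, IsSympMap ω A (f j)) {ε : ℝ} (hε : 0 < ε) {N : ℕ} (hN : 1 ≤ N) :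
    ∃ s, ‖s‖ < ε ∧ ∃ M : ℕ, 1 ≤ M ∧ ∃ y, IsInt (Mid.itr f s (N * M) y - y) := by
  choose g hg hfg using fun j => (hf j).chain hω
  have e : f = fun j z => auc A (g j z) := by
    funext j z
    exact hfg j z
  obtain ⟨s, hs, M, hM, z, p, hp, hz⟩ := Mid.noRoots_block hω.omc hA
    (fun i => (isInt_iff_span _).1 (hAi.int _ (isInt_basis i)))
    (fun i => (isInt_iff_span _).1 (hAi.int' _ (isInt_basis i))) hR.auc hg hε hN
  refine ⟨s, hs, M, hM, z, ?_⟩
  rw [e, hz, add_sub_cancel_left]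
  exact (isInt_iff_span _).2 hp

theorem symp_const (hω : IsSympForm ω) (hA : ∀ u v, ω (A u) (A v) = ω u v)
    (hAi : IsAut A) {f : (κ → ℝ) → (κ → ℝ)} (hf : IsSympMap ω A f) {ε : ℝ} (hε : 0 < ε) :
    ∃ s, ‖s‖ < ε ∧ ∃ M : ℕ, 1 ≤ M ∧ ∃ y, IsInt (Mid.itr (fun _ => f) s M y - y) := by
  obtain ⟨g, hg, hfg⟩ := hf.chain hω
  have e : f = fun z => auc A (g z) := by
    funext z
    exact hfg z
  obtain ⟨s, hs, M, hM, z, p, hp, hz⟩ := Mid.const_block hω.omc hA
    (fun i => (isInt_iff_span _).1 (hAi.int _ (isInt_basis i)))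
    (fun i => (isInt_iff_span _).1 (hAi.int' _ (isInt_basis i))) hg hε
  refine ⟨s, hs, M, hM, z, ?_⟩
  rw [e, hz, add_sub_cancel_left]
  exact (isInt_iff_span _).2 hp

end symp

/-! ### levels without roots of unity -/

theorem lef_step {κ : Type*} [Fintype κ] {B : (κ → ℝ) ≃ₗ[ℝ] (κ → ℝ)}
    (hBi : IsAut B) (hB : NoRoot B)
    {f : ℕ → (κ → ℝ) → (κ → ℝ)} (hc : ∀ j, Continuous (f j))
    (hf : ∀ j y p, IsInt p → f j (y + p) = f j y + B p) {N : ℕ} (hN : 1 ≤ N) :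
    ∃ y, IsInt (Mid.itr f 0 (N * 1) y - y) := by
  rw [mul_one]
  set A : (κ → ℝ) ≃L[ℝ] (κ → ℝ) := auc B with hAdef
  have hAi : ∀ p, IsInt p → IsInt (A p) := hBi.int
  have hA : ∀ N : ℕ, 1 ≤ N → ∀ v, (A ^ N) v = v → v = 0 := by
    intro N hN v hv
    rw [hAdef, auc_pow] at hv
    exact hB N hN v hv
  replace hf : ∀ j y p, IsInt p → f j (y + p) = f j y + A p := hf
  clear_value A
  have h1 : ∀ n, Continuous (Mid.itr f 0 n) := by
    intro n
    induction n with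
    | zero => exact continuous_id
    | succ n ih =>
      change Continuous fun z => f n (Mid.itr f 0 n z) + 0
      exact ((hc n).comp ih).add continuous_const
  have h2 : ∀ n y p, IsInt p → IsInt ((A ^ n) p) ∧
      Mid.itr f 0 n (y + p) = Mid.itr f 0 n y + (A ^ n) p := by
    intro n
    induction n with
    | zero => exact fun y p hp => ⟨hp, rfl⟩
    | succ n ih =>
      intro y p hp
      obtain ⟨ih1, ih2⟩ := ih y p hp
      rw [pow_succ']
      refine ⟨hAi _ ih1, ?_⟩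
      change f n (Mid.itr f 0 n (y + p)) + 0 = f n (Mid.itr f 0 n y) + 0 + A ((A ^ n) p)
      rw [ih2, hf _ _ _ ih1]
      abel
  -- the bounded part
  obtain ⟨K, hK⟩ := Mid.bdd_of_per (Pi.basisFun ℝ κ)
    (g := fun y => Mid.itr f 0 N y - (A ^ N) y) ((h1 N).sub (A ^ N : _ ≃L[ℝ] _).continuous)
    (by
      intro i z
      simp only [(h2 N z _ (isInt_basis i)).2, map_add]
      abel)
  -- the linear part
  set B : (κ → ℝ) →ₗ[ℝ] (κ → ℝ) := LinearMap.id - ((A ^ N : _ ≃L[ℝ] _) : _ →L[ℝ] _).toLinearMap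
    with hB
  have hBi : Function.Injective B := by
    rw [← LinearMap.ker_eq_bot, LinearMap.ker_eq_bot']
    intro v hv
    apply hA N hN
    have h3 : v - (A ^ N) v = 0 := hv
    exact (sub_eq_zero.1 h3).symm
  set e := (LinearEquiv.ofInjectiveEndo B hBi).toContinuousLinearEquiv with he
  have heB : ∀ v, e v = v - (A ^ N) v := fun v => rfl
  obtain ⟨y, hy⟩ := Pool.Agent.Helper133.Brouwer.brouwer
    (fun y => e.symm (Mid.itr f 0 N y - (A ^ N) y))
    (e.symm.continuous.comp ((h1 N).sub (A ^ N : _ ≃L[ℝ] _).continuous))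
    (‖(e.symm : (κ → ℝ) →L[ℝ] (κ → ℝ))‖ * K) (fun y => by
      refine ((e.symm : (κ → ℝ) →L[ℝ] (κ → ℝ)).le_opNorm _).trans ?_
      gcongr
      exact hK y)
  refine ⟨y, ?_⟩
  have h3 : e y = Mid.itr f 0 N y - (A ^ N) y := by
    conv_lhs => rw [← hy]
    exact e.apply_symm_apply _
  rw [heB] at h3
  have h4 : Mid.itr f 0 N y - y = 0 := by
    have h5 : Mid.itr f 0 N y = (y - (A ^ N) y) + (A ^ N) y := by rw [h3]; abel
    rw [h5]
    abel
  rw [h4]
  exact IsInt.zero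

/-! ### circle levels -/

theorem XO_add {φ : ℕ → ℝ → ℝ} (hd : ∀ j x (n : ℤ), φ j (x + n) = φ j x + n) {q : ℕ}
    (hp : ∀ j, ∃ p : ℤ, ∀ x, φ (j + q) x = φ j x + p) (x : ℝ) (i l : ℕ) :
    ∃ P : ℤ, XO φ x 0 (q * i + l) = XO φ (XO φ x 0 (q * i)) 0 l + P := by
  have hp' : ∀ i l : ℕ, ∃ p : ℤ, ∀ x, φ (q * i + l) x = φ l x + p := by
    intro i
    induction i with
    | zero => intro l; exact ⟨0, fun x => by simp⟩
    | succ i ih =>
      intro l
      obtain ⟨p, hp1⟩ := ih l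
      obtain ⟨p', hp2⟩ := hp (q * i + l)
      refine ⟨p + p', fun x => ?_⟩
      have e : q * (i + 1) + l = q * i + l + q := by ring
      rw [e, hp2, hp1]
      push_cast
      ring
  induction l with
  | zero => exact ⟨0, by simp [XO]⟩
  | succ l ih =>
    obtain ⟨P, hP⟩ := ih
    obtain ⟨p, hp1⟩ := hp' i l
    refine ⟨P + p, ?_⟩
    rw [← add_assoc]
    change φ (q * i + l) (XO φ x 0 (q * i + l)) + 0 = (φ l (XO φ (XO φ x 0 (q * i)) 0 l) + 0) + _
    rw [hP, hp1, hd]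
    push_cast
    ring

theorem circ_real {φ : ℕ → ℝ → ℝ} (hc : ∀ j, Continuous (φ j)) (hm : ∀ j, Monotone (φ j))
    (hd : ∀ j x (n : ℤ), φ j (x + n) = φ j x + n) {q : ℕ} (hq : 1 ≤ q)
    (hp : ∀ j, ∃ p : ℤ, ∀ x, φ (j + q) x = φ j x + p) {ε : ℝ} (hε : 0 < ε) :
    ∃ s : ℝ, |s| < ε ∧ ∃ M : ℕ, 1 ≤ M ∧ ∃ (x : ℝ) (p : ℤ), XO φ x s (q * M) = x + p := by
  -- recurrence
  obtain ⟨a, -, ψ, hψ, ha⟩ := isCompact_Icc.tendsto_subseq
    (x := fun n : ℕ => Int.fract (XO φ 0 0 (q * n))) (s := Icc (0 : ℝ) 1)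
    (fun n => ⟨Int.fract_nonneg _, (Int.fract_lt_one _).le⟩)
  rw [Metric.tendsto_atTop] at ha
  obtain ⟨N, hN⟩ := ha (ε / 4) (by positivity)
  have h1 := hN N le_rfl
  have h2 := hN (N + 1) (by omega)
  have h3 : ψ N < ψ (N + 1) := hψ (by omega)
  set i := ψ N with hi
  set M := ψ (N + 1) - ψ N with hM
  have hM1 : 1 ≤ M := by omega
  have e1 : ψ (N + 1) = i + M := by omega
  have h4 : |Int.fract (XO φ 0 0 (q * (i + M))) - Int.fract (XO φ 0 0 (q * i))| < ε / 2 := by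
    rw [← Real.dist_eq, ← e1]
    calc _ ≤ dist (Int.fract (XO φ 0 0 (q * ψ (N + 1)))) a +
          dist (Int.fract (XO φ 0 0 (q * i))) a := dist_triangle_right _ _ _
      _ < ε / 4 + ε / 4 := add_lt_add h2 h1
      _ = ε / 2 := by ring
  obtain ⟨P, hP⟩ := XO_add hd hp 0 i (q * M)
  rw [← mul_add] at hP
  set x := XO φ 0 0 (q * i) with hx
  -- closing
  set p : ℤ := ⌊XO φ 0 0 (q * (i + M))⌋ - ⌊x⌋ - P with hp0
  have h5 : |XO φ x 0 (q * M) - (x + p)| < ε / 2 := by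
    have e2 : XO φ x 0 (q * M) - (x + p) =
        Int.fract (XO φ 0 0 (q * (i + M))) - Int.fract x := by
      rw [Int.fract, Int.fract, hp0]
      push_cast
      rw [hP]
      ring
    rw [e2]
    exact h4
  have hqM : 1 ≤ q * M := Nat.one_le_iff_ne_zero.2 (by positivity)
  obtain ⟨s, hs1, hs2⟩ := XO_close hc hm (η := ε / 2) (by positivity) (q * M)
    (fun j => if j < q * M then XO φ x 0 j else x + p) (by
      intro j hj
      simp only [if_pos hj]
      by_cases hj2 : j + 1 < q * M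
      · rw [if_pos hj2]
        have e3 : XO φ x 0 (j + 1) = φ j (XO φ x 0 j) + 0 := rfl
        rw [e3, add_zero, sub_self, abs_zero]
        positivity
      · rw [if_neg hj2]
        have e4 : j + 1 = q * M := by omega
        have e3 : XO φ x 0 (q * M) = φ j (XO φ x 0 j) + 0 := by
          rw [← e4]; rfl
        rw [add_zero] at e3
        rw [← e3]
        exact h5.le)
  refine ⟨s, by linarith, M, hM1, x, p, ?_⟩
  have e5 : (if 0 < q * M then XO φ x 0 0 else x + p) = x := by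
    rw [if_pos (by omega)]
    rfl
  simp only [e5, lt_irrefl, if_false] at hs2
  exact hs2

theorem circ_step {κ : Type*} [Fintype κ] (hκ : ∃ i₀ : κ, ∀ i, i = i₀)
    {f : ℕ → (κ → ℝ) → (κ → ℝ)} (hc : ∀ j, Continuous (f j)) (hf : ∀ j, IsCircMap (f j)) {N : ℕ}
    (hN : 1 ≤ N) (hp : ∀ j, ∃ p, IsInt p ∧ ∀ y, f (j + N) y = f j y + p) {ε : ℝ} (hε : 0 < ε) :
    ∃ s, ‖s‖ < ε ∧ ∃ M : ℕ, 1 ≤ M ∧ ∃ y, IsInt (Mid.itr f s (N * M) y - y) := by
  obtain ⟨i₀, hi₀⟩ := hκ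
  have hcst : ∀ y : κ → ℝ, y = fun _ => y i₀ := by
    intro y
    funext i
    rw [hi₀ i]
  have hint : ∀ n : ℤ, IsInt (fun _ : κ => (n : ℝ)) := fun n _ => ⟨n, rfl⟩
  obtain ⟨s, hs, M, hM, x, p, hx⟩ := circ_real (φ := fun j x => f j (fun _ => x) i₀)
    (fun j => (continuous_apply i₀).comp ((hc j).comp (continuous_pi fun _ => continuous_id)))
    (fun j x y hxy => (hf j).1 (fun _ => hxy) i₀)
    (fun j x n => by
      have h1 := (hf j).2 (fun _ => x) (fun _ => (n : ℝ)) (hint n)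
      exact congrFun h1 i₀) hN
    (fun j => by
      obtain ⟨p, hp1, hp2⟩ := hp j
      obtain ⟨n, hn⟩ := hp1 i₀
      refine ⟨n, fun x => ?_⟩
      rw [hp2, Pi.add_apply, hn]) hε
  refine ⟨fun _ => s, ?_, M, hM, fun _ => x, ?_⟩
  · rw [pi_norm_lt_iff hε]
    exact fun _ => hs
  · have h1 : ∀ n, Mid.itr f (fun _ => s) n (fun _ => x) = fun _ =>
        XO (fun j x => f j (fun _ => x) i₀) x s n := by
      intro n
      induction n with
      | zero => rfl
      | succ n ih =>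
        change f n (Mid.itr f (fun _ => s) n (fun _ => x)) + (fun _ => s) = _
        rw [ih]
        conv_lhs => rw [hcst (f n _ + _)]
        rfl
    rw [h1, hx]
    intro i
    exact ⟨p, by simp⟩

/-! ### the induction over the levels -/

section tower

variable {ι : Type*} [Fintype ι] {lev : ι → ℕ} {F : (ι → ℝ) → (ι → ℝ)}

/-- The translated map -/
def Fu (F : (ι → ℝ) → (ι → ℝ)) (u : ι → ℝ) : (ι → ℝ) → (ι → ℝ) := fun x => F x + u

theorem Fu_succ (u z : ι → ℝ) (j : ℕ) : (Fu F u)^[j + 1] z = F ((Fu F u)^[j] z) + u := by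
  rw [Function.iterate_succ_apply']
  rfl

theorem agree (hT : ∀ i v w, (∀ j, lev j ≤ lev i → v j = w j) → F v i = F w i) {k : ℕ}
    {u u' z z' : ι → ℝ} (hu : ∀ i, lev i < k → u i = u' i) (hz : ∀ i, lev i < k → z i = z' i)
    (j : ℕ) : ∀ i, lev i < k → (Fu F u)^[j] z i = (Fu F u')^[j] z' i := by
  induction j with
  | zero => exact hz
  | succ j ih =>
    intro i hi
    rw [Fu_succ, Fu_succ, Pi.add_apply, Pi.add_apply, hu i hi]
    congr 1
    exact hT i _ _ fun j hj => ih j (by omega)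

theorem fib_congr (hT : ∀ i v w, (∀ j, lev j ≤ lev i → v j = w j) → F v i = F w i) {k : ℕ}
    {v v' : ι → ℝ} (hv : ∀ i, lev i < k → v i = v' i) : fib lev F k v = fib lev F k v' := by
  funext y i
  refine hT i _ _ fun j hj => ?_
  rw [glue, glue]
  split_ifs with h
  · rfl
  · exact hv j (by have := i.2; omega)

theorem level_itr (hT : ∀ i v w, (∀ j, lev j ≤ lev i → v j = w j) → F v i = F w i) {k : ℕ}
    {u z : ι → ℝ} (s y : Lv lev k → ℝ) (j : ℕ) :
    (fun i : Lv lev k => (Fu F (glue lev k u s))^[j] (glue lev k z y) i) =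
      Mid.itr (fun j => fib lev F k ((Fu F u)^[j] z)) s j y := by
  have hglue : ∀ (a : ι → ℝ) (c : Lv lev k → ℝ) (i : Lv lev k), glue lev k a c i = c i := by
    intro a c i
    rw [glue, dif_pos i.2]
  have hglue' : ∀ (a : ι → ℝ) (c : Lv lev k → ℝ) (i : ι), lev i < k → a i = glue lev k a c i := by
    intro a c i hi
    rw [glue, dif_neg (by omega)]
  induction j with
  | zero =>
    funext i
    exact hglue z y i
  | succ j ih =>
    funext i
    rw [Fu_succ, Pi.add_apply, hglue]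
    change _ = fib lev F k ((Fu F u)^[j] z) (Mid.itr (fun j => fib lev F k ((Fu F u)^[j] z)) s j y) i +
      s i
    congr 1
    rw [← ih]
    refine hT i _ _ fun j' hj' => ?_
    rw [glue]
    split_ifs with h
    · rfl
    · have h1 := agree hT (k := k) (hglue' u s) (hglue' z y) j j' (by have := i.2; omega)
      exact h1.symm

theorem period_aux (hT : ∀ i v w, (∀ j, lev j ≤ lev i → v j = w j) → F v i = F w i)
    (hF : ∀ p, IsInt p → ∃ p', IsInt p' ∧ ∀ z, F (z + p) = F z + p') {k N : ℕ} {u z : ι → ℝ}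
    (hN : ∀ i, lev i < k → ∃ n : ℤ, (Fu F u)^[N] z i - z i = n) (j : ℕ) :
    ∃ p, IsInt p ∧ ∀ i, lev i < k → (Fu F u)^[j + N] z i = ((Fu F u)^[j] z + p : ι → ℝ) i := by
  induction j with
  | zero =>
    refine ⟨fun i => if lev i < k then (Fu F u)^[N] z i - z i else 0, fun i => ?_, fun i hi => ?_⟩
    · by_cases hi : lev i < k
      · simp only [if_pos hi]
        exact hN i hi
      · simp only [if_neg hi]
        exact ⟨0, by simp⟩
    · rw [zero_add, Pi.add_apply, if_pos hi]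
      simp
  | succ j ih =>
    obtain ⟨p, hp, hz⟩ := ih
    obtain ⟨p', hp', hF'⟩ := hF p hp
    refine ⟨p', hp', fun i hi => ?_⟩
    rw [show j + 1 + N = (j + N) + 1 by ring, Fu_succ, Fu_succ, Pi.add_apply, Pi.add_apply,
      Pi.add_apply, hT i _ _ (fun j' hj' => hz j' (by omega)), hF', Pi.add_apply]
    ring

theorem period_mul (hT : ∀ i v w, (∀ j, lev j ≤ lev i → v j = w j) → F v i = F w i)
    (hF : ∀ p, IsInt p → ∃ p', IsInt p' ∧ ∀ z, F (z + p) = F z + p') {k N : ℕ} {u z : ι → ℝ}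
    (hN : ∀ i, lev i < k → ∃ n : ℤ, (Fu F u)^[N] z i - z i = n) (M : ℕ) :
    ∀ i, lev i < k → ∃ n : ℤ, (Fu F u)^[N * M] z i - z i = n := by
  induction M with
  | zero => intro i _; exact ⟨0, by simp⟩
  | succ M ih =>
    intro i hi
    obtain ⟨p, hp, hz⟩ := period_aux hT hF hN (N * M)
    obtain ⟨n, hn⟩ := ih i hi
    obtain ⟨n', hn'⟩ := hp i
    refine ⟨n + n', ?_⟩
    have e : N * (M + 1) = N * M + N := by ring
    rw [e, hz i hi, Pi.add_apply, hn']
    push_cast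
    rw [← hn]
    ring

theorem glue_add (k : ℕ) (v p : ι → ℝ) (y : Lv lev k → ℝ) :
    glue lev k (v + p) y = glue lev k v y + glue lev k p 0 := by
  funext i
  rw [Pi.add_apply, glue, glue, glue]
  split_ifs with h
  · simp
  · rfl

theorem isInt_glue {k : ℕ} {p : ι → ℝ} (hp : IsInt p) : IsInt (glue lev k p 0) := by
  intro i
  rw [glue]
  split_ifs with h
  · exact ⟨0, by simp⟩
  · exact hp i

theorem fib_add (hF : ∀ p, IsInt p → ∃ p', IsInt p' ∧ ∀ z, F (z + p) = F z + p') {k : ℕ}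
    {v p : ι → ℝ} (hp : IsInt p) :
    ∃ p' : Lv lev k → ℝ, IsInt p' ∧ ∀ y, fib lev F k (v + p) y = fib lev F k v y + p' := by
  obtain ⟨p', hp', h⟩ := hF _ (isInt_glue (lev := lev) (k := k) hp)
  refine ⟨fun i => p' i, fun i => hp' i, fun y => ?_⟩
  funext i
  rw [fib, glue_add, h]
  rfl

theorem fib_continuous (hFc : Continuous F) (k : ℕ) (v : ι → ℝ) :
    Continuous (fib lev F k v) := by
  refine continuous_pi fun i => (continuous_apply (i : ι)).comp (hFc.comp ?_)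
  refine continuous_pi fun j => ?_
  unfold glue
  split_ifs with h
  · exact continuous_apply _
  · exact continuous_const

/-- The closing property up to level `k`. -/
def PP (lev : ι → ℕ) (F : (ι → ℝ) → (ι → ℝ)) (k : ℕ) : Prop :=
  ∀ ε : ℝ, 0 < ε → ∃ u z : ι → ℝ, ‖u‖ < ε ∧ ∃ N : ℕ, 1 ≤ N ∧
    ∀ i, lev i < k → ∃ n : ℤ, (Fu F u)^[N] z i - z i = n

theorem PP_step_aux (hT : ∀ i v w, (∀ j, lev j ≤ lev i → v j = w j) → F v i = F w i)
    (hF : ∀ p, IsInt p → ∃ p', IsInt p' ∧ ∀ z, F (z + p) = F z + p') {k N : ℕ} {u z : ι → ℝ}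
    (hN : ∀ i, lev i < k → ∃ n : ℤ, (Fu F u)^[N] z i - z i = n) (hN1 : 1 ≤ N) {ε : ℝ}
    (hu : ‖u‖ < ε) {s : Lv lev k → ℝ} (hs : ‖s‖ < ε) {M : ℕ} (hM : 1 ≤ M) {y : Lv lev k → ℝ}
    (hy : IsInt (Mid.itr (fun j => fib lev F k ((Fu F u)^[j] z)) s (N * M) y - y)) :
    ∃ u z : ι → ℝ, ‖u‖ < ε ∧ ∃ N : ℕ, 1 ≤ N ∧
      ∀ i, lev i < k + 1 → ∃ n : ℤ, (Fu F u)^[N] z i - z i = n := by
  have hε : 0 < ε := (norm_nonneg _).trans_lt hu
  refine ⟨glue lev k u s, glue lev k z y, ?_, N * M,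
    Nat.one_le_iff_ne_zero.2 (by positivity), fun i hi => ?_⟩
  · rw [pi_norm_lt_iff hε]
    intro i
    rw [glue]
    split_ifs with h
    · exact (norm_le_pi_norm s _).trans_lt hs
    · exact (norm_le_pi_norm u i).trans_lt hu
  · have hglue' : ∀ (a : ι → ℝ) (c : Lv lev k → ℝ) (i : ι), lev i < k → glue lev k a c i = a i := by
      intro a c i hi
      rw [glue, dif_neg (by omega)]
    rcases (Nat.lt_succ_iff_lt_or_eq.1 hi) with h | h
    · obtain ⟨n, hn⟩ := period_mul hT hF hN M i h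
      refine ⟨n, ?_⟩
      rw [← hn, agree hT (k := k) (hglue' u s) (hglue' z y) (N * M) i h, hglue' z y i h]
    · have h1 := congrFun (level_itr hT (u := u) (z := z) s y (N * M)) ⟨i, h⟩
      obtain ⟨n, hn⟩ := hy ⟨i, h⟩
      refine ⟨n, ?_⟩
      rw [← hn, Pi.sub_apply, ← h1]
      have h2 : glue lev k z y i = y ⟨i, h⟩ := by rw [glue, dif_pos h]
      rw [h2]

theorem PP_step (hFc : Continuous F)
    (hF : ∀ p, IsInt p → ∃ p', IsInt p' ∧ ∀ z, F (z + p) = F z + p') (h : IsSympTower lev F)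
    {k : ℕ} (hk : PP lev F k) : PP lev F (k + 1) := by
  obtain ⟨hT, hL⟩ := h
  intro ε hε
  by_cases hex : ∃ i, lev i = k
  · rcases hL k hex with ⟨h1, h2⟩ | ⟨ω, A, hω, hA, hAi, hk0, hS⟩ | ⟨A, hAi, hA, hS⟩
    · obtain ⟨u, z, hu, N, hN1, hN⟩ := hk ε hε
      obtain ⟨s, hs, M, hM, y, hy⟩ := circ_step h1
        (f := fun j => fib lev F k ((Fu F u)^[j] z)) (fun j => fib_continuous hFc k _)
        (fun j => h2 _) hN1 (by
          intro j
          obtain ⟨p, hp, hz⟩ := period_aux hT hF hN j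
          obtain ⟨p', hp', hpp⟩ := fib_add (lev := lev) (k := k) (v := (Fu F u)^[j] z) hF hp
          refine ⟨p', hp', fun y => ?_⟩
          rw [← hpp, fib_congr hT hz]) hε
      exact PP_step_aux hT hF hN hN1 hu hs hM hy
    · rcases Nat.eq_zero_or_pos k with rfl | hkpos
      · -- lowest level
        obtain ⟨s, hs, M, hM, y, hy⟩ := symp_const hω hA hAi (hS 0) hε
        have hN : ∀ i, lev i < 0 → ∃ n : ℤ, (Fu F 0)^[1] (0 : ι → ℝ) i - (0 : ι → ℝ) i = n :=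
          fun i hi => absurd hi (Nat.not_lt_zero _)
        refine PP_step_aux hT hF hN le_rfl (by rw [norm_zero]; exact hε) hs hM (y := y) ?_
        have e : (fun j => fib lev F 0 ((Fu F 0)^[j] (0 : ι → ℝ))) = fun _ => fib lev F 0 0 := by
          funext j
          exact fib_congr hT fun i hi => absurd hi (Nat.not_lt_zero _)
        rw [e, one_mul]
        exact hy
      · obtain ⟨u, z, hu, N, hN1, hN⟩ := hk ε hε
        have hR : OneRoot A := by
          rcases hk0 with h0 | h0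
          · omega
          · exact h0
        obtain ⟨s, hs, M, hM, y, hy⟩ := symp_step hω hA hAi hR
          (f := fun j => fib lev F k ((Fu F u)^[j] z)) (fun j => hS _) hε hN1
        exact PP_step_aux hT hF hN hN1 hu hs hM hy
    · obtain ⟨u, z, hu, N, hN1, hN⟩ := hk ε hε
      obtain ⟨y, hy⟩ := lef_step hAi hA (f := fun j => fib lev F k ((Fu F u)^[j] z))
        (fun j => fib_continuous hFc k _) (fun j => hS _) hN1
      exact PP_step_aux hT hF hN hN1 hu (by rw [norm_zero]; exact hε) le_rfl hy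
  · obtain ⟨u, z, hu, N, hN1, hN⟩ := hk ε hε
    refine ⟨u, z, hu, N, hN1, fun i hi => hN i ?_⟩
    rcases (Nat.lt_succ_iff_lt_or_eq.1 hi) with h | h
    · exact h
    · exact absurd ⟨i, h⟩ hex

theorem PP_all (hFc : Continuous F)
    (hF : ∀ p, IsInt p → ∃ p', IsInt p' ∧ ∀ z, F (z + p) = F z + p') (h : IsSympTower lev F)
    {ε : ℝ} (hε : 0 < ε) : ∃ u z : ι → ℝ, ‖u‖ < ε ∧ ∃ N : ℕ, 1 ≤ N ∧
      IsInt ((Fu F u)^[N] z - z) := by
  have h1 : ∀ k, PP lev F k := by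
    intro k
    induction k with
    | zero =>
      intro ε hε
      exact ⟨0, 0, by rw [norm_zero]; exact hε, 1, le_rfl,
        fun i hi => absurd hi (Nat.not_lt_zero _)⟩
    | succ k ih => exact PP_step hFc hF h ih
  obtain ⟨u, z, hu, N, hN1, hN⟩ := h1 (∑ i, lev i + 1) ε hε
  refine ⟨u, z, hu, N, hN1, fun i => hN i ?_⟩
  have : lev i ≤ ∑ i, lev i := Finset.single_le_sum (fun _ _ => Nat.zero_le _) (Finset.mem_univ i)
  omega

end tower

end Pool.Agent.T6.H48.CZ
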